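import Pool.Agent.PT42.Defs
import Pool.Agent.HT42.Alg

/-!
# PT42/Chain: three consecutive terms of the chain
-/

set_option autoImplicit false

namespace Pool.Agent.PT42

open Pool.Agent.DFJ Pool.Agent.TBK Pool.Agent.HT42

theorem sy_of_form (c u q : ℂ) (k : ℤ) (hf : q ^ 2 + c * u * q = u ^ 2 + c ^ 2) :
    Sy k.natAbs u c (act c k (u, q)).1 := by
  have ht := te_sq k.natAbs (c ^ 2 + 2)
  unfold Sy
  obtain ⟨m, hm | hm⟩ := k.eq_nat_or_neg
  · subst hm
    rw [Int.natAbs_natCast] at ht ⊢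
    rw [act_pos]
    simp only []
    generalize te m (c ^ 2 + 2) = T at *
    generalize al m (c ^ 2 + 2) = A at *
    linear_combination (-(u ^ 2) / 4) * ht + A ^ 2 * c ^ 2 * hf
  · subst hm
    rw [Int.natAbs_neg, Int.natAbs_natCast] at ht ⊢
    rw [act_neg]
    simp only []
    generalize te m (c ^ 2 + 2) = T at *
    generalize al m (c ^ 2 + 2) = A at *
    linear_combination (-(u ^ 2) / 4) * ht + A ^ 2 * c ^ 2 * hf

theorem chain_sy (b : ℕ → ℤ) (w : ℂ) (j : ℕ) :
    Sy (b (j + 1)).natAbs (Wc b w j) (Wc b w (j + 1)) (Wc b w (j + 2)) := by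
  rw [W_step]
  exact sy_of_form _ _ _ _ (by linear_combination chain_form b w j)

end Pool.Agent.PT42
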