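import Pool.Agent.TBK.Chain

/-!
# PT42/Defs: three consecutive terms of the chain (shared, do not change)
-/

set_option autoImplicit false

namespace Pool.Agent.PT42

open Pool.Agent.DFJ Pool.Agent.TBK

/-- `u, c, u'` are consecutive terms of the chain, the parameter at `c` has absolute value `m`.
Symmetric in `u` and `u'`. -/
def Sy (m : ℕ) (u c u' : ℂ) : Prop :=
  u ^ 2 + u' ^ 2 - te m (c ^ 2 + 2) * u * u' = al m (c ^ 2 + 2) ^ 2 * c ^ 4

theorem Sy.symm {m : ℕ} {u c u' : ℂ} (h : Sy m u c u') : Sy m u' c u := by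
  unfold Sy at *
  linear_combination h

end Pool.Agent.PT42
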