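import Pool.Agent.PT42.DensS64

/-!
PT42/Dens: density of the good words.
-/

set_option autoImplicit false

namespace Pool.Agent.PT42

theorem density2 {X : ℕ} (hX : 2 ≤ X) (S : ∀ N : ℕ, Set (Fin N → ℤ))
    (hS : ∀ (N : ℕ) (a : Fin N → ℤ), (∀ j, a j ≠ 0) →
      (∃ i : ℕ, ∃ hi : i + 7 ≤ N, |a ⟨i + 3, by omega⟩| = 2 ∧
        ∀ k : Fin 7, 2 ≤ |a ⟨i + k, by omega⟩|) → a ∈ S N) :
    Filter.Tendsto (fun g : ℕ =>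
      (Nat.card {a : Fin (2 * g) → ℤ // (∀ j, a j ≠ 0 ∧ |a j| ≤ (X : ℤ)) ∧ a ∈ S (2 * g)} : ℝ) /
        (Nat.card {a : Fin (2 * g) → ℤ // ∀ j, a j ≠ 0 ∧ |a j| ≤ (X : ℤ)} : ℝ))
      Filter.atTop (nhds 1) :=
  density2S64 hX S hS

end Pool.Agent.PT42
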