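import Mathlib

/-!
PT42/Dens: the words of length `2 g` without a block `2222222` are rare.
-/

set_option autoImplicit false

namespace Pool.Agent.PT42

/-- the letters -/
noncomputable def Al (X : ℕ) : Finset ℤ := (Finset.Icc (-(X : ℤ)) X).erase 0

theorem mem_Al {X : ℕ} {z : ℤ} : z ∈ Al X ↔ z ≠ 0 ∧ |z| ≤ (X : ℤ) := by
  unfold Al
  rw [Finset.mem_erase, Finset.mem_Icc, abs_le]

theorem card_Al (X : ℕ) : (Al X).card = 2 * X := by
  unfold Al
  rw [Finset.card_erase_of_mem (Finset.mem_Icc.2 ⟨by omega, by omega⟩), Int.card_Icc]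
  omega

/-- all words -/
noncomputable def Wd (X N : ℕ) : Finset (Fin N → ℤ) := Fintype.piFinset fun _ => Al X

theorem mem_Wd {X N : ℕ} {a : Fin N → ℤ} : a ∈ Wd X N ↔ ∀ j, a j ≠ 0 ∧ |a j| ≤ (X : ℤ) := by
  unfold Wd
  rw [Fintype.mem_piFinset]
  exact forall_congr' fun j => mem_Al

theorem card_Wd (X N : ℕ) : (Wd X N).card = (2 * X) ^ N := by
  unfold Wd
  rw [Fintype.card_piFinset, Finset.prod_const, card_Al, Finset.card_univ, Fintype.card_fin]

theorem blk_lt {N l : ℕ} (hl : l < N / 7) (k : Fin 7) : 7 * l + k.val < N := by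
  have h1 : 7 * (N / 7) ≤ N := Nat.mul_div_le N 7
  have h2 := k.isLt
  omega

open Classical in
/-- the words without an aligned block `2222222` -/
noncomputable def Bd (X N : ℕ) : Finset (Fin N → ℤ) :=
  (Wd X N).filter fun a => ∀ l (hl : l < N / 7), ¬ ∀ k : Fin 7, a ⟨7 * l + k.val, blk_lt hl k⟩ = 2

theorem mem_Bd {X N : ℕ} {a : Fin N → ℤ} : a ∈ Bd X N ↔ a ∈ Wd X N ∧
    ∀ l (hl : l < N / 7), ¬ ∀ k : Fin 7, a ⟨7 * l + k.val, blk_lt hl k⟩ = 2 := by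
  classical
  unfold Bd
  rw [Finset.mem_filter]

theorem card_Bd_le (X N : ℕ) : (Bd X N).card ≤ (2 * X) ^ N := by
  classical
  rw [← card_Wd]
  exact Finset.card_filter_le _ _

theorem card_Bd_step {X : ℕ} (hX : 2 ≤ X) (N : ℕ) :
    (Bd X (N + 7)).card ≤ ((2 * X) ^ 7 - 1) * (Bd X N).card := by
  classical
  have h2 : (fun _ : Fin 7 => (2 : ℤ)) ∈ Wd X 7 := by
    rw [mem_Wd]
    intro _
    refine ⟨by norm_num, ?_⟩
    rw [abs_of_pos (by norm_num : (0 : ℤ) < 2)]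
    exact_mod_cast hX
  have hc : ((2 * X) ^ 7 - 1) = ((Wd X 7).erase fun _ => 2).card := by
    rw [Finset.card_erase_of_mem h2, card_Wd]
  rw [hc, ← Finset.card_product]
  refine Finset.card_le_card_of_injOn
    (fun a => (fun k : Fin 7 => a ⟨k.val, by have := k.isLt; omega⟩,
      fun j : Fin N => a ⟨j.val + 7, by have := j.isLt; omega⟩)) ?_ ?_
  · intro a ha
    rw [Finset.mem_coe, mem_Bd] at ha
    obtain ⟨ha1, ha2⟩ := ha
    rw [mem_Wd] at ha1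
    rw [Finset.mem_coe, Finset.mem_product, Finset.mem_erase, mem_Wd, mem_Bd, mem_Wd]
    refine ⟨⟨?_, fun k => ha1 _⟩, fun j => ha1 _, ?_⟩
    · intro h
      refine ha2 0 (by omega) fun k => ?_
      have h3 := congrFun h k
      simp only at h3
      have h4 : (⟨7 * 0 + k.val, blk_lt (by omega) k⟩ : Fin (N + 7)) =
          ⟨k.val, by have := k.isLt; omega⟩ := Fin.ext (by simp)
      rw [h4]
      exact h3
    · intro l hl h
      refine ha2 (l + 1) (by omega) fun k => ?_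
      have h3 := h k
      have h4 : (⟨7 * (l + 1) + k.val, blk_lt (by omega) k⟩ : Fin (N + 7)) =
          ⟨(7 * l + k.val) + 7, by have := blk_lt hl k; omega⟩ := Fin.ext (by simp; omega)
      rw [h4]
      exact h3
  · intro a _ b _ hab
    have h1 := congrArg Prod.fst hab
    have h2 := congrArg Prod.snd hab
    funext j
    by_cases hj : j.val < 7
    · have h3 := congrFun h1 ⟨j.val, hj⟩
      exact h3
    · have hj' := j.isLt
      have h3 := congrFun h2 ⟨j.val - 7, by omega⟩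
      have h4 : (⟨(j.val - 7) + 7, by omega⟩ : Fin (N + 7)) = j := Fin.ext (by simp; omega)
      simp only at h3
      rw [h4] at h3
      exact h3

theorem card_Bd_bound {X : ℕ} (hX : 2 ≤ X) (N : ℕ) :
    ((Bd X N).card : ℝ) ≤ ((2 * X : ℕ) : ℝ) ^ N * (1 - 1 / ((2 * X : ℕ) : ℝ) ^ 7) ^ (N / 7) := by
  have hT : (0 : ℝ) < ((2 * X : ℕ) : ℝ) := by exact_mod_cast (by omega : 0 < 2 * X)
  have hT1 : (1 : ℝ) ≤ ((2 * X : ℕ) : ℝ) := by exact_mod_cast (by omega : 1 ≤ 2 * X)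
  have hT7 : (1 : ℝ) ≤ ((2 * X : ℕ) : ℝ) ^ 7 := one_le_pow₀ hT1
  have hθ : 0 ≤ 1 - 1 / ((2 * X : ℕ) : ℝ) ^ 7 := by
    have : 1 / ((2 * X : ℕ) : ℝ) ^ 7 ≤ 1 := by
      rw [div_le_one (by linarith)]
      exact hT7
    linarith
  induction N using Nat.strong_induction_on with
  | _ N ih =>
    rcases lt_or_ge N 7 with h | h
    · rw [Nat.div_eq_of_lt h, pow_zero, mul_one]
      exact_mod_cast card_Bd_le X N
    · obtain ⟨M, rfl⟩ : ∃ M, N = M + 7 := ⟨N - 7, by omega⟩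
      have h1 := ih M (by omega)
      have h2 : ((Bd X (M + 7)).card : ℝ) ≤ (((2 * X : ℕ) : ℝ) ^ 7 - 1) * (Bd X M).card := by
        have h3 := card_Bd_step hX M
        have h4 : (((2 * X) ^ 7 - 1 : ℕ) : ℝ) = ((2 * X : ℕ) : ℝ) ^ 7 - 1 := by
          rw [Nat.cast_sub (Nat.one_le_pow _ _ (by omega)), Nat.cast_pow, Nat.cast_one]
        rw [← h4]
        exact_mod_cast h3
      have e1 : (M + 7) / 7 = M / 7 + 1 := by omega
      rw [e1]
      calc ((Bd X (M + 7)).card : ℝ) ≤ (((2 * X : ℕ) : ℝ) ^ 7 - 1) * (Bd X M).card := h2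
        _ ≤ (((2 * X : ℕ) : ℝ) ^ 7 - 1) *
            (((2 * X : ℕ) : ℝ) ^ M * (1 - 1 / ((2 * X : ℕ) : ℝ) ^ 7) ^ (M / 7)) :=
            mul_le_mul_of_nonneg_left h1 (by linarith)
        _ = ((2 * X : ℕ) : ℝ) ^ (M + 7) *
            (1 - 1 / ((2 * X : ℕ) : ℝ) ^ 7) ^ (M / 7 + 1) := by
            rw [pow_add, pow_succ (1 - 1 / ((2 * X : ℕ) : ℝ) ^ 7)]
            have hne : ((2 * X : ℕ) : ℝ) ^ 7 ≠ 0 := by positivity
            have e2 : (((2 * X : ℕ) : ℝ) ^ 7 - 1) =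
                ((2 * X : ℕ) : ℝ) ^ 7 * (1 - 1 / ((2 * X : ℕ) : ℝ) ^ 7) := by
              field_simp
            rw [e2]
            ring

theorem density2S64 {X : ℕ} (hX : 2 ≤ X) (S : ∀ N : ℕ, Set (Fin N → ℤ))
    (hS : ∀ (N : ℕ) (a : Fin N → ℤ), (∀ j, a j ≠ 0) →
      (∃ i : ℕ, ∃ hi : i + 7 ≤ N, |a ⟨i + 3, by omega⟩| = 2 ∧
        ∀ k : Fin 7, 2 ≤ |a ⟨i + k, by omega⟩|) → a ∈ S N) :
    Filter.Tendsto (fun g : ℕ =>
      (Nat.card {a : Fin (2 * g) → ℤ // (∀ j, a j ≠ 0 ∧ |a j| ≤ (X : ℤ)) ∧ a ∈ S (2 * g)} : ℝ) /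
        (Nat.card {a : Fin (2 * g) → ℤ // ∀ j, a j ≠ 0 ∧ |a j| ≤ (X : ℤ)} : ℝ))
      Filter.atTop (nhds 1) := by
  classical
  have hT : (0 : ℝ) < ((2 * X : ℕ) : ℝ) := by exact_mod_cast (by omega : 0 < 2 * X)
  have hT1 : (1 : ℝ) ≤ ((2 * X : ℕ) : ℝ) := by exact_mod_cast (by omega : 1 ≤ 2 * X)
  have hT7 : (1 : ℝ) ≤ ((2 * X : ℕ) : ℝ) ^ 7 := one_le_pow₀ hT1
  obtain ⟨θ, hθd⟩ : ∃ θ : ℝ, θ = 1 - 1 / ((2 * X : ℕ) : ℝ) ^ 7 := ⟨_, rfl⟩
  have hθ0 : 0 ≤ θ := by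
    have : 1 / ((2 * X : ℕ) : ℝ) ^ 7 ≤ 1 := by
      rw [div_le_one (by linarith)]
      exact hT7
    rw [hθd]
    linarith
  have hθ1 : θ < 1 := by
    have : 0 < 1 / ((2 * X : ℕ) : ℝ) ^ 7 := by positivity
    rw [hθd]
    linarith
  have hden : ∀ N : ℕ, (Nat.card {a : Fin N → ℤ // ∀ j, a j ≠ 0 ∧ |a j| ≤ (X : ℤ)} : ℝ) =
      ((2 * X : ℕ) : ℝ) ^ N := by
    intro N
    have h1 : Nat.card {a : Fin N → ℤ // ∀ j, a j ≠ 0 ∧ |a j| ≤ (X : ℤ)} = (Wd X N).card :=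
      Nat.subtype_card (Wd X N) fun a => mem_Wd
    rw [h1, card_Wd]
    push_cast
    rfl
  have hnum : ∀ N : ℕ, (Nat.card {a : Fin N → ℤ // (∀ j, a j ≠ 0 ∧ |a j| ≤ (X : ℤ)) ∧ a ∈ S N} : ℝ) =
      (((Wd X N).filter fun a => a ∈ S N).card : ℝ) := by
    intro N
    rw [Nat.subtype_card ((Wd X N).filter fun a => a ∈ S N) fun a => by
      rw [Finset.mem_filter, mem_Wd]]
  have hcomp : ∀ N : ℕ, ((2 * X : ℕ) : ℝ) ^ N - ((2 * X : ℕ) : ℝ) ^ N * θ ^ (N / 7) ≤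
      (((Wd X N).filter fun a => a ∈ S N).card : ℝ) := by
    intro N
    have h1 := Finset.card_filter_add_card_filter_not (s := Wd X N) (fun a => a ∈ S N)
    have h2 : ((Wd X N).filter fun a => ¬ a ∈ S N) ⊆ Bd X N := by
      intro a ha
      rw [Finset.mem_filter] at ha
      rw [mem_Bd]
      refine ⟨ha.1, fun l hl h => ha.2 (hS N a (fun j => (mem_Wd.1 ha.1 j).1) ?_)⟩
      have h7 : 7 * (N / 7) ≤ N := Nat.mul_div_le N 7
      refine ⟨7 * l, by omega, ?_, fun k => ?_⟩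
      · have h3 := h 3
        have h4 : (⟨7 * l + (3 : Fin 7).val, blk_lt hl 3⟩ : Fin N) = ⟨7 * l + 3, by omega⟩ := rfl
        rw [h4] at h3
        rw [h3]
        norm_num
      · have h3 := h k
        rw [h3]
        norm_num
    have h3 := Finset.card_le_card h2
    have h4 := card_Bd_bound hX N
    rw [← hθd] at h4
    rw [card_Wd] at h1
    have h5 : (((Wd X N).filter fun a => a ∈ S N).card : ℝ) +
        (((Wd X N).filter fun a => ¬ a ∈ S N).card : ℝ) = ((2 * X : ℕ) : ℝ) ^ N := by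
      exact_mod_cast h1
    have h6 : (((Wd X N).filter fun a => ¬ a ∈ S N).card : ℝ) ≤ ((Bd X N).card : ℝ) := by
      exact_mod_cast h3
    linarith
  have hup : ∀ N : ℕ, (((Wd X N).filter fun a => a ∈ S N).card : ℝ) ≤ ((2 * X : ℕ) : ℝ) ^ N := by
    intro N
    have h1 : ((Wd X N).filter fun a => a ∈ S N).card ≤ (Wd X N).card :=
      Finset.card_filter_le _ _
    rw [card_Wd] at h1
    exact_mod_cast h1
  have hlim : Filter.Tendsto (fun g : ℕ => 1 - θ ^ (2 * g / 7)) Filter.atTop (nhds 1) := by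
    have h1 : Filter.Tendsto (fun g : ℕ => 2 * g / 7) Filter.atTop Filter.atTop := by
      refine Filter.tendsto_atTop_atTop.2 fun b => ⟨7 * b, fun a ha => ?_⟩
      omega
    have h2 := (tendsto_pow_atTop_nhds_zero_of_lt_one hθ0 hθ1).comp h1
    have h3 := h2.const_sub 1
    rw [sub_zero] at h3
    exact h3
  refine tendsto_of_tendsto_of_tendsto_of_le_of_le hlim tendsto_const_nhds ?_ ?_
  · intro g
    beta_reduce
    rw [hden, hnum, le_div_iff₀ (pow_pos hT _)]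
    have h1 := hcomp (2 * g)
    linarith
  · intro g
    beta_reduce
    rw [hden, hnum, div_le_one (pow_pos hT _)]
    exact hup (2 * g)

end Pool.Agent.PT42
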