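import Pool.Agent.PT42.Grow

/-!
# PT42/Grow2: growth of the chain, sharper constants
-/

set_option autoImplicit false

namespace Pool.Agent.PT42

open Pool.Agent.DFJ Pool.Agent.TBK

theorem Sy.esc2 {m : ℕ} {u c u' : ℂ} (h : Sy m u c u') (hm : 1 ≤ m) {B : ℝ} (hB : 2 < B)
    (hc : ‖u‖ + B ≤ ‖c‖) : ‖c‖ + B ≤ ‖u'‖ := by
  have hu0 := norm_nonneg u
  have hcB : B ≤ ‖c‖ := by linarith
  rcases hm.eq_or_lt with h1 | h1
  · subst h1
    by_contra hlt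
    have hlt' := not_le.1 hlt
    have e1 : (u - u') ^ 2 = c ^ 2 * (c ^ 2 + u * u') := by
      have e0 : te 1 (c ^ 2 + 2) = c ^ 2 + 2 := rfl
      have e00 : al 1 (c ^ 2 + 2) = 1 := rfl
      have h' := h
      unfold Sy at h'
      rw [e0, e00] at h'
      linear_combination h'
    have e2 : ‖u - u'‖ ^ 2 = ‖c‖ ^ 2 * ‖c ^ 2 + u * u'‖ := by
      rw [← norm_pow, e1, norm_mul, norm_pow]
    have e3 : ‖u - u'‖ < 2 * ‖c‖ := by
      have := norm_sub_le u u'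
      linarith
    have e4 : ‖u - u'‖ ^ 2 < (2 * ‖c‖) ^ 2 := pow_lt_pow_left₀ e3 (norm_nonneg _) two_ne_zero
    have hcc : 0 < ‖c‖ ^ 2 := by
      have : 0 < ‖c‖ := by linarith
      positivity
    have e5 : ‖c ^ 2 + u * u'‖ < 4 := by
      have : ‖c‖ ^ 2 * ‖c ^ 2 + u * u'‖ < ‖c‖ ^ 2 * 4 := by
        rw [← e2]
        nlinarith
      exact lt_of_mul_lt_mul_left this hcc.le
    have e6 : ‖c‖ ^ 2 ≤ ‖c ^ 2 + u * u'‖ + ‖u‖ * ‖u'‖ := by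
      have := norm_sub_le (c ^ 2 + u * u') (u * u')
      rw [add_sub_cancel_right, norm_pow, norm_mul] at this
      exact this
    have e7 : ‖u‖ * ‖u'‖ ≤ (‖c‖ - B) * (‖c‖ + B) :=
      mul_le_mul (by linarith) hlt'.le (norm_nonneg _) (by linarith)
    nlinarith
  · have h2 : 4 < ‖c‖ ^ 2 := by nlinarith
    obtain ⟨X, s, hX, hs, hs1, f1, -, f4⟩ := h.star h1
    have hXs : s < X := by linarith
    have hX0 : 0 < X := by linarith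
    have h5 : 8 * (X * (1 + X)) * ‖c‖ ^ 2 ≤ (X + X) * (‖u‖ ^ 2 + ‖u'‖ ^ 2) :=
      f4.trans (mul_le_mul_of_nonneg_right (by linarith) (by positivity))
    have h6 : 4 * (1 + X) * ‖c‖ ^ 2 ≤ ‖u‖ ^ 2 + ‖u'‖ ^ 2 := by
      have : 2 * X * (4 * (1 + X) * ‖c‖ ^ 2) ≤ 2 * X * (‖u‖ ^ 2 + ‖u'‖ ^ 2) := by linarith
      exact le_of_mul_le_mul_left this (by linarith)
    have h7 : 4 * ‖c‖ ^ 2 ≤ 4 * (1 + X) * ‖c‖ ^ 2 :=
      mul_le_mul_of_nonneg_right (by linarith) (by positivity)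
    have h8 : ‖u‖ ^ 2 ≤ (‖c‖ - B) ^ 2 := pow_le_pow_left₀ hu0 (by linarith) 2
    have h9 : B ^ 2 ≤ ‖c‖ ^ 2 := pow_le_pow_left₀ (by linarith) hcB 2
    have h10 : (‖c‖ + B) ^ 2 ≤ ‖u'‖ ^ 2 := by nlinarith
    exact le_of_sq_le_sq h10 (norm_nonneg _)

theorem Sy.re_le2 {m : ℕ} {u c u' : ℂ} (h : Sy m u c u') (hm : 2 ≤ m) (hu : ‖u‖ ≤ 2)
    (hu' : ‖u'‖ ≤ 217 / 100) : c.re ^ 2 ≤ 21 / 10 := by
  obtain ⟨X, s, hX, hs, hs1, e1, e3, e4⟩ := h.star hm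
  rw [e3]
  by_contra hlt
  have h1 : 21 / 40 < X * s := by linarith
  have h2 : 21 / 40 < X := by nlinarith
  have h3 : ‖u‖ ^ 2 + ‖u'‖ ^ 2 ≤ 8.7089 := by
    have h31 := pow_le_pow_left₀ (norm_nonneg _) hu 2
    have h32 := pow_le_pow_left₀ (norm_nonneg _) hu' 2
    norm_num at h31 h32 ⊢
    linarith
  have h4 : 8 * (X * (1 + X)) * (4 * (X + 1 - s)) ≤ (X + s) * 8.7089 := by
    rw [← e1]
    exact e4.trans (mul_le_mul_of_nonneg_left h3 (by linarith))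
  have h5 : 8 * (X * (1 + X)) * (4 * X) ≤ 8 * (X * (1 + X)) * (4 * (X + 1 - s)) :=
    mul_le_mul_of_nonneg_left (by linarith) (by positivity)
  have h6 : (1 + X) * (32 * X ^ 2) ≤ (1 + X) * 8.7089 := by nlinarith
  have h7 : 32 * X ^ 2 ≤ 8.7089 := le_of_mul_le_mul_left h6 (by linarith)
  nlinarith

end Pool.Agent.PT42
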