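import Pool.Agent.PT42.Defs

/-!
# PT42/Loc2: a parameter of absolute value 2 between small neighbours
-/

set_option autoImplicit false

namespace Pool.Agent.PT42

open Pool.Agent.DFJ Pool.Agent.TBK

theorem loc2_poly {a q : ℝ} (ha : 0 ≤ a) (haq : a ^ 2 ≤ q) (hq : q ≤ 1) :
    212 / 5 < 26 / 5 * (4 - 4 * a + q) * (4 - a) * (3 - q) +
      4 * (q - 2 * a ^ 2 + 8 * a - 20 + 16 * a * (2 - q)) := by
  have ha1 : a ≤ 1 := by nlinarith
  have h1 : 0 ≤ (1 - q) * (26 / 5 * (4 - a) * (2 + q - 4 * a) - 4 + 64 * a) := by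
    apply mul_nonneg (by linarith)
    have h2 : 0 ≤ (4 - a) * (q - a ^ 2) := mul_nonneg (by linarith) (by linarith)
    nlinarith [sq_nonneg (a - 2 / 5), mul_nonneg (sq_nonneg a) (sub_nonneg.2 ha1)]
  nlinarith [mul_nonneg (sub_nonneg.2 ha1) (by linarith : (0 : ℝ) ≤ 444 / 5 - 168 / 5 * a)]

theorem Sy.loc2 {u c u' : ℂ} (h : Sy 2 u c u') (hu : ‖u‖ ≤ 2) (hu' : ‖u'‖ ≤ 2)
    (hr : u.re ^ 2 ≤ 21 / 10) (hr' : u'.re ^ 2 ≤ 21 / 10) : 1 < ‖c ^ 2 + 4‖ := by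
  by_contra hcon
  push Not at hcon
  obtain ⟨e, he⟩ : ∃ e : ℂ, e = c ^ 2 + 4 := ⟨_, rfl⟩
  rw [← he] at hcon
  have hte : te 2 (c ^ 2 + 2) = (e - 2) ^ 2 - 2 := by
    rw [te_step 0, te_one, te_zero, he]
    ring
  have hal : al 2 (c ^ 2 + 2) = e - 2 := by
    rw [al_step 0, al_one, al_zero, he]
    ring
  unfold Sy at h
  rw [hte, hal] at h
  have hc4 : c ^ 4 = (e - 4) ^ 2 := by rw [he]; ring
  rw [hc4] at h
  obtain ⟨σ, hσ⟩ : ∃ σ : ℂ, σ = u + u' := ⟨_, rfl⟩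
  obtain ⟨δ, hδ⟩ : ∃ δ : ℂ, δ = u - u' := ⟨_, rfl⟩
  have R : σ ^ 2 * (e * (4 - e)) = (e - 2) ^ 2 * (4 * (4 - e) ^ 2 - δ ^ 2) := by
    rw [hσ, hδ]
    linear_combination 4 * h
  -- norms
  obtain ⟨S, hS⟩ : ∃ S : ℝ, S = ‖σ‖ ^ 2 := ⟨_, rfl⟩
  obtain ⟨D, hD⟩ : ∃ D : ℝ, D = ‖δ‖ ^ 2 := ⟨_, rfl⟩
  have hD0 : 0 ≤ D := by rw [hD]; positivity
  have hS0 : 0 ≤ S := by rw [hS]; positivity
  have hn : ∀ z : ℂ, ‖z‖ ^ 2 = z.re ^ 2 + z.im ^ 2 := by
    intro z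
    rw [Complex.sq_norm, Complex.normSq_apply]
    ring
  have hu2 : u.re ^ 2 + u.im ^ 2 ≤ 4 := by
    rw [← hn]
    nlinarith [norm_nonneg u]
  have hu2' : u'.re ^ 2 + u'.im ^ 2 ≤ 4 := by
    rw [← hn]
    nlinarith [norm_nonneg u']
  have hSD : S + D ≤ 16 := by
    rw [hS, hD, hn, hn, hσ, hδ]
    simp only [Complex.add_re, Complex.add_im, Complex.sub_re, Complex.sub_im]
    nlinarith
  have hSre : S + (σ ^ 2).re ≤ 84 / 5 := by
    rw [hS, hn, hσ, pow_two (u + u'), Complex.mul_re]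
    simp only [Complex.add_re, Complex.add_im]
    nlinarith [sq_nonneg (u.re - u'.re)]
  obtain ⟨t, ht⟩ : ∃ t : ℝ, t = ‖e‖ := ⟨_, rfl⟩
  obtain ⟨r, hrr⟩ : ∃ r : ℝ, r = ‖4 - e‖ := ⟨_, rfl⟩
  obtain ⟨n, hnn⟩ : ∃ n : ℝ, n = ‖e - 2‖ ^ 2 := ⟨_, rfl⟩
  rw [← ht] at hcon
  have hr3 : 3 ≤ r := by
    have h1 : ‖(4 : ℂ)‖ ≤ ‖4 - e‖ + ‖e‖ := by
      have := norm_add_le (4 - e) e
      rwa [sub_add_cancel] at this
    have h2 : ‖(4 : ℂ)‖ = 4 := by norm_num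
    rw [h2, ← hrr, ← ht] at h1
    linarith
  have hn1 : 1 ≤ n := by
    have h1 : ‖(2 : ℂ)‖ ≤ ‖e - 2‖ + ‖e‖ := by
      have := norm_sub_le e (e - 2)
      rw [sub_sub_cancel] at this
      linarith
    have h2 : ‖(2 : ℂ)‖ = 2 := by norm_num
    rw [h2, ← ht] at h1
    rw [hnn]
    nlinarith
  have he0 : e ≠ 0 := by
    rintro rfl
    have h1 : δ ^ 2 = 64 := by linear_combination (1 / 4) * R
    have h2 : D = 64 := by
      rw [hD, ← norm_pow, h1]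
      norm_num
    linarith
  have ht0 : 0 < t := by rw [ht]; exact norm_pos_iff.2 he0
  have hr0 : 0 < r := by linarith
  -- first step
  have hnorm : n * (4 * r ^ 2 - D) ≤ S * (t * r) := by
    have h1 := congrArg norm R
    rw [norm_mul, norm_mul, norm_mul, norm_pow, norm_pow, ← hS, ← hnn, ← ht, ← hrr] at h1
    rw [h1]
    apply mul_le_mul_of_nonneg_left _ (by linarith)
    have h2 := norm_sub_norm_le (4 * (4 - e) ^ 2) (δ ^ 2)
    rw [norm_mul, norm_pow, norm_pow, ← hrr, ← hD] at h2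
    have h3 : ‖(4 : ℂ)‖ = 4 := by norm_num
    rw [h3] at h2
    exact h2
  have htr : 0 < t * r := mul_pos ht0 hr0
  obtain ⟨ρ, hρ⟩ : ∃ ρ : ℝ, ρ = n / (t * r) := ⟨_, rfl⟩
  have hρn : n = ρ * (t * r) := by rw [hρ, div_mul_cancel₀ _ htr.ne']
  have hρ0 : 0 < ρ := by rw [hρ]; positivity
  have hA : ρ * (4 * r ^ 2 - D) ≤ S := by
    have h1 : (ρ * (4 * r ^ 2 - D)) * (t * r) ≤ S * (t * r) := by
      calc (ρ * (4 * r ^ 2 - D)) * (t * r) = n * (4 * r ^ 2 - D) := by rw [hρn]; ring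
        _ ≤ _ := hnorm
    exact le_of_mul_le_mul_right h1 htr
  have hr9 : 9 ≤ r ^ 2 := by nlinarith
  have hρ1 : ρ ≤ 4 / 5 := by
    have h1 : 20 ≤ 4 * r ^ 2 - D := by linarith
    have h2 := mul_le_mul_of_nonneg_left h1 hρ0.le
    linarith
  obtain ⟨k, hk⟩ : ∃ k : ℝ, k = 4 * ρ * r ^ 2 := ⟨_, rfl⟩
  have hi : k + (1 - ρ) * D ≤ 16 := by
    rw [hk]
    linarith
  have hk16 : k ≤ 16 := by
    have h1 : 0 ≤ (1 - ρ) * D := mul_nonneg (by linarith) hD0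
    linarith
  have hρ2 : ρ ≤ 4 / 9 := by
    rw [hk] at hk16
    have h1 := mul_le_mul_of_nonneg_left hr9 hρ0.le
    linarith
  -- second step
  obtain ⟨κ, hκ⟩ : ∃ κ : ℂ, κ = 4 * (-e ^ 2 + 8 * e - 20 + 16 * e⁻¹) := ⟨_, rfl⟩
  have h4e : (4 : ℂ) - e ≠ 0 := by
    intro h0
    rw [h0, norm_zero] at hrr
    linarith
  have hκ2 : κ * e = 4 * (e - 2) ^ 2 * (4 - e) := by
    rw [hκ]
    field_simp
    ring
  have hnκ : ‖κ‖ = k := by
    have h1 := congrArg norm hκ2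
    rw [norm_mul, norm_mul, norm_mul, norm_pow, ← hnn, ← ht, ← hrr] at h1
    have h3 : ‖(4 : ℂ)‖ = 4 := by norm_num
    rw [h3, hρn] at h1
    have h4 : ‖κ‖ * t = k * t := by rw [h1, hk]; ring
    exact mul_right_cancel₀ ht0.ne' h4
  have hdiff : ‖κ - σ ^ 2‖ = ρ * D := by
    have h1 : (κ - σ ^ 2) * (e * (4 - e)) = (e - 2) ^ 2 * δ ^ 2 := by
      rw [sub_mul, R, ← mul_assoc, hκ2]
      ring
    have h2 := congrArg norm h1
    rw [norm_mul, norm_mul, norm_mul, norm_pow, norm_pow, ← hnn, ← ht, ← hrr, ← hD, hρn] at h2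
    have h3 : ‖κ - σ ^ 2‖ * (t * r) = ρ * D * (t * r) := by rw [h2]; ring
    exact mul_right_cancel₀ htr.ne' h3
  have hii : k + κ.re - 2 * (ρ * D) ≤ 84 / 5 := by
    have h1 := Complex.re_le_norm (κ - σ ^ 2)
    rw [Complex.sub_re, hdiff] at h1
    have h2 := norm_sub_norm_le κ (σ ^ 2)
    rw [hdiff, hnκ, norm_pow, ← hS] at h2
    linarith
  have hfin : 13 / 5 * k + κ.re ≤ 212 / 5 := by
    have h1 : 0 ≤ (8 - 18 * ρ) * D := mul_nonneg (by linarith) hD0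
    linarith
  -- third step
  obtain ⟨a, haa⟩ : ∃ a : ℝ, a = e.re := ⟨_, rfl⟩
  obtain ⟨q, hqq⟩ : ∃ q : ℝ, q = t ^ 2 := ⟨_, rfl⟩
  have hq : q = e.re ^ 2 + e.im ^ 2 := by rw [hqq, ht, hn]
  have haq : a ^ 2 ≤ q := by rw [hq, haa]; nlinarith [sq_nonneg e.im]
  have hq1 : q ≤ 1 := by rw [hqq]; nlinarith
  have hq0 : 0 < q := by rw [hqq]; positivity
  have hnq : n = 4 - 4 * a + q := by
    rw [hnn, hn, hq, haa]
    simp only [Complex.sub_re, Complex.sub_im, Complex.re_ofNat, Complex.im_ofNat]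
    ring
  have hr4 : 4 - a ≤ r := by
    have h1 := Complex.re_le_norm (4 - e)
    rw [Complex.sub_re, Complex.re_ofNat, ← hrr, ← haa] at h1
    exact h1
  have hkt : k * t = 4 * n * r := by
    rw [hk, hρn]
    ring
  have ha0 : 0 ≤ a := by
    by_contra hneg
    push Not at hneg
    have h1 : 4 ≤ n := by rw [hnq]; linarith
    have h2 : 4 ≤ r := by linarith
    have h3 : k * t ≤ 16 := by nlinarith
    rw [hkt] at h3
    nlinarith
  have hk2 : 2 * n * (4 - a) * (3 - q) ≤ k := by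
    have h0 : 0 ≤ 4 - a := by nlinarith
    have h1 : t * (3 - q) ≤ 2 := by
      rw [hqq]
      nlinarith [mul_nonneg (sq_nonneg (t - 1)) (by linarith : (0 : ℝ) ≤ t + 2)]
    have h2 : (2 * n * (4 - a) * (3 - q)) * t ≤ k * t := by
      rw [hkt]
      calc (2 * n * (4 - a) * (3 - q)) * t = (2 * n * (4 - a)) * (t * (3 - q)) := by ring
        _ ≤ (2 * n * (4 - a)) * 2 := by
            apply mul_le_mul_of_nonneg_left h1
            have : 0 ≤ n := by linarith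
            positivity
        _ = 4 * n * (4 - a) := by ring
        _ ≤ 4 * n * r := by
            apply mul_le_mul_of_nonneg_left hr4
            linarith
    exact le_of_mul_le_mul_right h2 ht0
  have hκre : 4 * (q - 2 * a ^ 2 + 8 * a - 20 + 16 * a * (2 - q)) ≤ κ.re := by
    have h1 : κ.re = 4 * (-(a ^ 2 - e.im ^ 2) + 8 * a - 20 + 16 * (a / q)) := by
      rw [hκ, haa]
      have h2 : (e⁻¹).re = e.re / q := by
        rw [Complex.inv_re, Complex.normSq_apply, hq]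
        congr 1
        ring
      have h3 : (e ^ 2).re = e.re ^ 2 - e.im ^ 2 := by
        rw [pow_two, Complex.mul_re]
        ring
      simp only [Complex.mul_re, Complex.add_re, Complex.sub_re, Complex.neg_re, Complex.re_ofNat,
        Complex.im_ofNat, zero_mul, sub_zero, h2, h3]
    have h4 : a * (2 - q) ≤ a / q := by
      rw [le_div_iff₀ hq0]
      nlinarith [mul_nonneg ha0 (sq_nonneg (q - 1))]
    have h5 : e.im ^ 2 = q - a ^ 2 := by rw [hq, haa]; ring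
    rw [h1, h5]
    linarith
  have hpoly := loc2_poly ha0 haq hq1
  rw [hnq] at hk2
  nlinarith

end Pool.Agent.PT42
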