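import Pool.Agent.TBK.Final
import Pool.Agent.PT42.Chain
import Pool.Agent.PT42.Win2
import Pool.Agent.PT42.Norm
import Pool.Agent.PT42.Dens

/-!
# PT42/Final: two-bridge knots with a window
-/

set_option autoImplicit false

namespace Pool.Agent.PT42

open Pool.Agent.DFJ Pool.Agent.TBK LaurentPolynomial

variable {g : ℕ} {a : ℕ → ℤ}

/-- The conjecture of Dunfield, Friedl and Jackson (both parts) for the two-bridge knot with group
`TBGroup g a`: for every nonabelian representation `α` of the knot group in `SL(2,ℂ)` with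
torsion-free image and meridians of trace `± 2` the torsion exists and is unique, it has degree
`2 (2g - 1)`, and it is monic if and only if the commutator subgroup is finitely generated. -/
def Conj (g : ℕ) (a : ℕ → ℤ) : Prop :=
  ∀ φ : TBGroup g a →* Multiplicative ℤ, Function.Surjective φ →
    ∀ α : TBGroup g a →* SLC, Good α →
      (∃! τ : ℂ[T;T⁻¹], IsTorsion φ α τ) ∧ ∀ τ : ℂ[T;T⁻¹], IsTorsion φ α τ →
        HasDegree τ (2 * (2 * g - 1)) ∧ (IsMonic τ ↔ (commutator (TBGroup g a)).FG)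

/-- Some entry `a_i` is `± 2`, and the entries at distance at most `2` from it have absolute value
at least `2`. -/
def Window (g : ℕ) (a : ℕ → ℤ) : Prop :=
  ∃ i, 1 ≤ i ∧ i ≤ 2 * g ∧ |a i| = 2 ∧
    ∀ j, 1 ≤ j → j ≤ 2 * g → i ≤ j + 2 → j ≤ i + 2 → 2 ≤ |a j|

/-- The sequence `a_1, …, a_{2g}` as a function on `ℕ`. -/
def ext (g : ℕ) (a : Fin (2 * g) → ℤ) (j : ℕ) : ℤ :=
  if h : j - 1 < 2 * g then a ⟨j - 1, h⟩ else 0

theorem LL_ne {i : ℕ} (hi : 1 ≤ i) (hig : i ≤ 2 * g) (hai : |a i| = 2)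
    (hw : ∀ j, 1 ≤ j → j ≤ 2 * g → i ≤ j + 2 → j ≤ i + 2 → 2 ≤ |a j|)
    {w : ℂ} (h : Cl (2 * g) (sg a) w) : LL (sg a) (2 * g) w ≠ 1 := by
  have hai' : (sg a i).natAbs = 2 := by
    rw [sg_natAbs]
    have : ((a i).natAbs : ℤ) = 2 := by rw [← Int.abs_eq_natAbs]; exact hai
    exact_mod_cast this
  refine norm_arg h hi hig hai' fun w' h' => ?_
  refine window2 (n := 2 * g) (F := fun j => Wc (sg a) w' j) (m := fun j => (sg a j).natAbs)
    (fun j h1 h2 => ?_) (fun j h1 h2 => ?_) rfl h'.close hi hig hai' fun j h1 h2 h3 h4 => ?_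
  · obtain ⟨k, rfl⟩ : ∃ k, j = k + 1 := ⟨j - 1, by omega⟩
    exact chain_sy (sg a) w' k
  · exact Nat.one_le_iff_ne_zero.2 (Int.natAbs_ne_zero.2 (h'.ne j h1 h2))
  · have h5 := hw j h1 h2 h3 h4
    rw [Int.abs_eq_natAbs] at h5
    change 2 ≤ (sg a j).natAbs
    rw [sg_natAbs]
    exact_mod_cast h5

theorem window_conj (hg : 1 ≤ g) (ha : ∀ j, 1 ≤ j → j ≤ 2 * g → a j ≠ 0) (hw : Window g a) :
    Conj g a ∧ ¬ (commutator (TBGroup g a)).FG := by
  obtain ⟨i, hi, hig, hai, hw⟩ := hw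
  refine ⟨fun φ hφ α hα => ?_, ?_⟩
  · obtain ⟨h1, h2⟩ := part_one hg ha hφ hα
    refine ⟨h1, fun τ hτ => ⟨(h2 τ hτ).1, ?_⟩⟩
    refine monic_iff hg ha hφ hα hτ fun w hc _ _ hL => ?_
    exact absurd hL (LL_ne hi hig hai hw hc)
  · rw [fg_iff' ha]
    intro h
    have h1 := h i hi hig
    rw [Int.abs_eq_natAbs, h1] at hai
    norm_num at hai

theorem conj_pattern {a : Fin (2 * g) → ℤ} (ha : ∀ j, a j ≠ 0)
    (hw : ∃ i : ℕ, ∃ hi : i + 7 ≤ 2 * g, |a ⟨i + 3, by omega⟩| = 2 ∧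
      ∀ k : Fin 7, 2 ≤ |a ⟨i + k, by omega⟩|) : Conj g (ext g a) := by
  obtain ⟨i, hi, h2, hk⟩ := hw
  refine (window_conj (by omega) (fun j h1 h3 => ?_) ⟨i + 4, by omega, by omega, ?_, ?_⟩).1
  · unfold ext
    rw [dif_pos (by omega)]
    exact ha _
  · unfold ext
    rw [dif_pos (by omega)]
    convert h2 using 3
    exact Fin.ext (by simp)
  · intro j h1 h3 h4 h5
    unfold ext
    rw [dif_pos (by omega)]
    have h6 := hk ⟨j - 1 - i, by omega⟩
    convert h6 using 4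
    simp only []
    omega

theorem tendsto_conj {X : ℕ} (hX : 2 ≤ X) : Filter.Tendsto (fun g : ℕ =>
    (Nat.card {a : Fin (2 * g) → ℤ // (∀ j, a j ≠ 0 ∧ |a j| ≤ (X : ℤ)) ∧ Conj g (ext g a)} : ℝ) /
      (Nat.card {a : Fin (2 * g) → ℤ // ∀ j, a j ≠ 0 ∧ |a j| ≤ (X : ℤ)} : ℝ))
        Filter.atTop (nhds 1) := by
  have h := density2 hX (fun N => {a : Fin N → ℤ | ∀ g : ℕ, ∀ e : N = 2 * g,
    Conj g (ext g fun j => a (Fin.cast e.symm j))}) ?_
  · refine h.congr fun g => ?_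
    have hc : ∀ a : Fin (2 * g) → ℤ,
        ((∀ j, a j ≠ 0 ∧ |a j| ≤ (X : ℤ)) ∧ a ∈ {a : Fin (2 * g) → ℤ | ∀ g' : ℕ,
          ∀ e : 2 * g = 2 * g', Conj g' (ext g' fun j => a (Fin.cast e.symm j))}) ↔
        ((∀ j, a j ≠ 0 ∧ |a j| ≤ (X : ℤ)) ∧ Conj g (ext g a)) := by
      intro a
      refine and_congr_right fun _ => ?_
      constructor
      · intro h1
        exact h1 g rfl
      · intro h1 g' e
        obtain rfl : g = g' := by omega
        exact h1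
    rw [Nat.card_congr (Equiv.subtypeEquivRight hc)]
  · rintro N a ha hw g rfl
    exact conj_pattern ha hw

end Pool.Agent.PT42
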