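import Pool.Agent.PT42.Defs

/-!
# PT42/Sum: the sum of the squares of the neighbours
-/

set_option autoImplicit false

namespace Pool.Agent.PT42

open Pool.Agent.DFJ Pool.Agent.TBK

theorem Sy.sum_ge {m : ℕ} {u c u' : ℂ} (h : Sy m u c u') {L : ℝ} (hL : 0 ≤ L)
    (h1 : L ≤ ‖te m (c ^ 2 + 2) - 2‖) (h2 : L ≤ ‖te m (c ^ 2 + 2) + 2‖) :
    2 * L * ‖c‖ ^ 2 ≤ ‖c ^ 2 + 4‖ * (‖u‖ ^ 2 + ‖u'‖ ^ 2) := by
  rcases hL.eq_or_lt with rfl | hL0
  · simp only [mul_zero, zero_mul]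
    positivity
  unfold Sy at h
  have hT := te_sq m (c ^ 2 + 2)
  set T := te m (c ^ 2 + 2)
  set E := al m (c ^ 2 + 2)
  have key : (c ^ 2 + 4) * ((u + u') ^ 2 * (T - 2) - (u - u') ^ 2 * (T + 2)) =
      -(4 * c ^ 2 * ((T - 2) * (T + 2))) := by
    linear_combination (-(4 * (c ^ 2 + 4))) * h + 4 * c ^ 2 * hT
  have hpar : ‖u + u'‖ ^ 2 + ‖u - u'‖ ^ 2 = 2 * (‖u‖ ^ 2 + ‖u'‖ ^ 2) := by
    have := parallelogram_law_with_norm ℝ u u'
    nlinarith [this]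
  have hn := congrArg norm key
  rw [norm_mul, norm_neg, norm_mul, norm_mul, norm_mul, norm_pow] at hn
  have h4 : ‖(4 : ℂ)‖ = 4 := by norm_num
  rw [h4] at hn
  have hsub : ‖(u + u') ^ 2 * (T - 2) - (u - u') ^ 2 * (T + 2)‖ ≤
      ‖u + u'‖ ^ 2 * ‖T - 2‖ + ‖u - u'‖ ^ 2 * ‖T + 2‖ := by
    refine (norm_sub_le _ _).trans ?_
    rw [norm_mul, norm_mul, norm_pow, norm_pow]
  set A := ‖T - 2‖
  set B := ‖T + 2‖
  set P := ‖u + u'‖ ^ 2
  set Q := ‖u - u'‖ ^ 2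
  set N := ‖c ^ 2 + 4‖
  have hA : 0 < A := hL0.trans_le h1
  have hB : 0 < B := hL0.trans_le h2
  have hN : 0 ≤ N := norm_nonneg _
  have hP : 0 ≤ P := by positivity
  have hQ : 0 ≤ Q := by positivity
  have h5 : 4 * ‖c‖ ^ 2 * (A * B) ≤ N * (P * A + Q * B) := by
    rw [← hn]
    exact mul_le_mul_of_nonneg_left hsub hN
  have h6 : (P * A + Q * B) * L ≤ (P + Q) * (A * B) := by
    have e1 : P * A * L ≤ P * A * B := mul_le_mul_of_nonneg_left h2 (by positivity)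
    have e2 : Q * B * L ≤ Q * B * A := mul_le_mul_of_nonneg_left h1 (by positivity)
    nlinarith
  have h7 : 4 * ‖c‖ ^ 2 * L * (A * B) ≤ N * (P + Q) * (A * B) := by
    have e3 := mul_le_mul_of_nonneg_right h5 hL0.le
    have e4 := mul_le_mul_of_nonneg_left h6 hN
    nlinarith
  have h8 := le_of_mul_le_mul_right h7 (mul_pos hA hB)
  rw [hpar] at h8
  linarith

end Pool.Agent.PT42
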