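import Pool.Agent.PT42.Defs

/-!
# PT42/Xs: parameters X and s of a complex number
-/

set_option autoImplicit false

namespace Pool.Agent.PT42

open Pool.Agent.DFJ Pool.Agent.TBK

theorem xs_pow {p q : ℝ} (hp : 0 < p) (hq : 0 < q) (hpq : p * q = 1) {m : ℕ} (hm : 2 ≤ m) :
    (p ^ 2 - q ^ 2) ^ 2 ≤ (p ^ m - q ^ m) ^ 2 := by
  have key : ∀ p q : ℝ, 0 < p → 0 < q → p * q = 1 → q ≤ p →
      (p ^ 2 - q ^ 2) ^ 2 ≤ (p ^ m - q ^ m) ^ 2 := by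
    intro p q hp hq hpq h
    have h1 : 1 ≤ p := by nlinarith
    have h2 : q ≤ 1 := by nlinarith
    have h3 : p ^ 2 ≤ p ^ m := pow_le_pow_right₀ h1 hm
    have h4 : q ^ m ≤ q ^ 2 := pow_le_pow_of_le_one hq.le h2 hm
    have h5 : q ^ 2 ≤ p ^ 2 := pow_le_pow_left₀ hq.le h 2
    exact pow_le_pow_left₀ (by linarith) (by linarith) 2
  rcases le_total q p with h | h
  · exact key p q hp hq hpq h
  · have := key q p hq hp (by linarith) h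
    calc (p ^ 2 - q ^ 2) ^ 2 = (q ^ 2 - p ^ 2) ^ 2 := by ring
      _ ≤ (q ^ m - p ^ m) ^ 2 := this
      _ = (p ^ m - q ^ m) ^ 2 := by ring

theorem xs_te (m : ℕ) {η : ℂ} (hη : η ≠ 0) : te m (η + η⁻¹) = η ^ m + η⁻¹ ^ m := by
  induction m using Nat.strong_induction_on with
  | _ m ih =>
    match m with
    | 0 => simp; norm_num
    | 1 => simp
    | (k + 2) =>
      rw [te_step, ih (k + 1) (by omega), ih k (by omega)]
      have h := mul_inv_cancel₀ hη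
      linear_combination (η ^ k + η⁻¹ ^ k) * h

theorem xs {m : ℕ} (hm : 2 ≤ m) (c : ℂ) : ∃ X s : ℝ, 0 ≤ X ∧ 0 ≤ s ∧ s ≤ 1 ∧
    ‖c‖ ^ 2 = 4 * (X + 1 - s) ∧ ‖c ^ 2 + 4‖ = 4 * (X + s) ∧ c.re ^ 2 = 4 * (X * s) ∧
    16 * (X * (1 + X)) ≤ ‖te m (c ^ 2 + 2) - 2‖ ∧ 16 * (X * (1 + X)) ≤ ‖te m (c ^ 2 + 2) + 2‖ := by
  obtain ⟨t, ht⟩ := IsAlgClosed.exists_pow_nat_eq (c ^ 2 + 4) (n := 2) (by norm_num)
  obtain ⟨r, hr⟩ : ∃ r : ℂ, r = (c + t) / 2 := ⟨_, rfl⟩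
  have hq : r ^ 2 - c * r - 1 = 0 := by
    rw [hr]
    linear_combination ht / 4
  have hr0 : r ≠ 0 := by
    intro h
    rw [h] at hq
    norm_num at hq
  have hinv : r * r⁻¹ = 1 := mul_inv_cancel₀ hr0
  have hc : c = r - r⁻¹ := by
    have h1 : c * r = r * r - 1 := by linear_combination -hq
    have h2 : c = (r * r - 1) * r⁻¹ := by
      rw [← h1, mul_assoc, hinv, mul_one]
    rw [h2]
    linear_combination r * hinv
  obtain ⟨a, ha⟩ : ∃ a : ℝ, a = r.re := ⟨_, rfl⟩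
  obtain ⟨b, hb⟩ : ∃ b : ℝ, b = r.im := ⟨_, rfl⟩
  obtain ⟨P, hP⟩ : ∃ P : ℝ, P = a ^ 2 + b ^ 2 := ⟨_, rfl⟩
  have hPn : Complex.normSq r = P := by
    rw [Complex.normSq_apply, hP, ha, hb]
    ring
  have hP0 : 0 < P := by
    rw [← hPn]
    exact Complex.normSq_pos.2 hr0
  have hire : (r⁻¹).re = a / P := by rw [Complex.inv_re, hPn, ha]
  have hiim : (r⁻¹).im = -b / P := by rw [Complex.inv_im, hPn, hb]
  have hcre : c.re = a - a / P := by rw [hc, Complex.sub_re, hire, ha]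
  have hcim : c.im = b + b / P := by
    rw [hc, Complex.sub_im, hiim, hb]
    ring
  have hb2 : b ^ 2 = P - a ^ 2 := by rw [hP]; ring
  have hnn : ‖r‖ ^ 2 = P := by rw [← hPn, Complex.normSq_eq_norm_sq]
  have hrn : 0 < ‖r‖ := norm_pos_iff.2 hr0
  have hmain : ((P - 1) ^ 2 * (P + 1) ^ 2) / P ^ 2 ≤ (‖r‖ ^ m - ‖r‖⁻¹ ^ m) ^ 2 := by
    have h1 := xs_pow hrn (inv_pos.2 hrn) (mul_inv_cancel₀ hrn.ne') hm
    refine le_trans (le_of_eq ?_) h1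
    have h2 : ‖r‖⁻¹ ^ 2 = 1 / P := by rw [inv_pow, hnn, one_div]
    rw [hnn, h2]
    field_simp
    ring
  have hX16 : 16 * ((P - 1) ^ 2 / (4 * P) * (1 + (P - 1) ^ 2 / (4 * P))) =
      ((P - 1) ^ 2 * (P + 1) ^ 2) / P ^ 2 := by
    field_simp
    ring
  have hs2 : c ^ 2 + 2 = r ^ 2 + (r ^ 2)⁻¹ := by
    rw [hc, ← inv_pow]
    linear_combination (-2) * hinv
  have hte : te m (c ^ 2 + 2) = (r ^ m) ^ 2 + (r⁻¹ ^ m) ^ 2 := by
    rw [hs2, xs_te m (pow_ne_zero 2 hr0), ← inv_pow]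
    ring
  have hmm : r ^ m * r⁻¹ ^ m = 1 := by rw [← mul_pow, hinv, one_pow]
  refine ⟨(P - 1) ^ 2 / (4 * P), a ^ 2 / P, by positivity, by positivity, ?_, ?_, ?_, ?_, ?_, ?_⟩
  · rw [div_le_one hP0, hP]
    nlinarith [sq_nonneg b]
  · rw [← Complex.normSq_eq_norm_sq, Complex.normSq_apply, hcre, hcim]
    have : (a - a / P) * (a - a / P) + (b + b / P) * (b + b / P) =
        (a ^ 2 * (P - 1) ^ 2 + b ^ 2 * (P + 1) ^ 2) / P ^ 2 := by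
      field_simp
    rw [this, hb2]
    field_simp
    ring
  · have h1 : c ^ 2 + 4 = (r + r⁻¹) ^ 2 := by
      rw [hc]
      linear_combination (-4) * hinv
    rw [h1, norm_pow, ← Complex.normSq_eq_norm_sq, Complex.normSq_apply, Complex.add_re,
      Complex.add_im, hire, hiim, ← ha, ← hb]
    have : (a + a / P) * (a + a / P) + (b + -b / P) * (b + -b / P) =
        (a ^ 2 * (P + 1) ^ 2 + b ^ 2 * (P - 1) ^ 2) / P ^ 2 := by
      field_simp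
      ring
    rw [this, hb2]
    field_simp
    ring
  · rw [hcre]
    field_simp
  · rw [hX16]
    refine hmain.trans ?_
    have h1 : te m (c ^ 2 + 2) - 2 = (r ^ m - r⁻¹ ^ m) ^ 2 := by
      rw [hte]
      linear_combination 2 * hmm
    rw [h1, norm_pow]
    have h2 : |‖r ^ m‖ - ‖r⁻¹ ^ m‖| ≤ ‖r ^ m - r⁻¹ ^ m‖ := abs_norm_sub_norm_le _ _
    rw [norm_pow, norm_pow, norm_inv] at h2
    rw [← sq_abs (‖r‖ ^ m - ‖r‖⁻¹ ^ m)]
    exact pow_le_pow_left₀ (abs_nonneg _) h2 2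
  · rw [hX16]
    refine hmain.trans ?_
    have h1 : te m (c ^ 2 + 2) + 2 = (r ^ m - -(r⁻¹ ^ m)) ^ 2 := by
      rw [hte]
      linear_combination (-2) * hmm
    rw [h1, norm_pow]
    have h2 : |‖r ^ m‖ - ‖-(r⁻¹ ^ m)‖| ≤ ‖r ^ m - -(r⁻¹ ^ m)‖ := abs_norm_sub_norm_le _ _
    rw [norm_neg, norm_pow, norm_pow, norm_inv] at h2
    rw [← sq_abs (‖r‖ ^ m - ‖r‖⁻¹ ^ m)]
    exact pow_le_pow_left₀ (abs_nonneg _) h2 2

end Pool.Agent.PT42
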