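import Pool.Agent.PT42.Defs
import Pool.Agent.PT42.Xs
import Pool.Agent.PT42.Sum

/-!
# PT42/Grow: growth of the chain
-/

set_option autoImplicit false

namespace Pool.Agent.PT42

open Pool.Agent.DFJ Pool.Agent.TBK

/-- the basic inequality -/
theorem Sy.star {m : ℕ} {u c u' : ℂ} (h : Sy m u c u') (hm : 2 ≤ m) : ∃ X s : ℝ, 0 ≤ X ∧ 0 ≤ s ∧
    s ≤ 1 ∧ ‖c‖ ^ 2 = 4 * (X + 1 - s) ∧ c.re ^ 2 = 4 * (X * s) ∧
    8 * (X * (1 + X)) * ‖c‖ ^ 2 ≤ (X + s) * (‖u‖ ^ 2 + ‖u'‖ ^ 2) := by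
  obtain ⟨X, s, hX, hs, hs1, e1, e2, e3, e4, e5⟩ := xs hm c
  refine ⟨X, s, hX, hs, hs1, e1, e3, ?_⟩
  have h1 := h.sum_ge (by positivity) e4 e5
  rw [e2] at h1
  linarith

theorem Sy.grow {m : ℕ} {u c u' : ℂ} (h : Sy m u c u') (hm : 2 ≤ m) (hc : 2 < ‖c‖)
    (hu : ‖u‖ ≤ ‖c‖) : (‖c‖ ^ 2 - 1) * ‖c‖ ^ 2 ≤ ‖u'‖ ^ 2 := by
  obtain ⟨X, s, hX, hs, hs1, e1, -, e4⟩ := h.star hm
  have h4 : 4 < ‖c‖ ^ 2 := by nlinarith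
  have hXs : s < X := by linarith
  have hX0 : 0 < X := by linarith
  have h5 : 8 * (X * (1 + X)) * ‖c‖ ^ 2 ≤ (X + X) * (‖u‖ ^ 2 + ‖u'‖ ^ 2) :=
    e4.trans (mul_le_mul_of_nonneg_right (by linarith) (by positivity))
  have h6 : 4 * (1 + X) * ‖c‖ ^ 2 ≤ ‖u‖ ^ 2 + ‖u'‖ ^ 2 := by
    have : 2 * X * (4 * (1 + X) * ‖c‖ ^ 2) ≤ 2 * X * (‖u‖ ^ 2 + ‖u'‖ ^ 2) := by linarith
    exact le_of_mul_le_mul_left this (by linarith)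
  have h7 : ‖u‖ ^ 2 ≤ ‖c‖ ^ 2 := pow_le_pow_left₀ (norm_nonneg _) hu 2
  have h8 : (‖c‖ ^ 2 - 1) * ‖c‖ ^ 2 ≤ (3 + 4 * X) * ‖c‖ ^ 2 :=
    mul_le_mul_of_nonneg_right (by linarith) (by positivity)
  linarith

theorem Sy.esc {m : ℕ} {u c u' : ℂ} (h : Sy m u c u') (hm : 1 ≤ m) (hc : ‖u‖ + 3 ≤ ‖c‖) :
    ‖c‖ + 3 ≤ ‖u'‖ := by
  have hu0 := norm_nonneg u
  have hc3 : 3 ≤ ‖c‖ := by linarith
  rcases hm.eq_or_lt with h1 | h1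
  · subst h1
    by_contra hlt
    have hlt' := not_le.1 hlt
    have e1 : (u - u') ^ 2 = c ^ 2 * (c ^ 2 + u * u') := by
      have e0 : te 1 (c ^ 2 + 2) = c ^ 2 + 2 := rfl
      have e00 : al 1 (c ^ 2 + 2) = 1 := rfl
      have h' := h
      unfold Sy at h'
      rw [e0, e00] at h'
      linear_combination h'
    have e2 : ‖u - u'‖ ^ 2 = ‖c‖ ^ 2 * ‖c ^ 2 + u * u'‖ := by
      rw [← norm_pow, e1, norm_mul, norm_pow]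
    have e3 : ‖u - u'‖ < 2 * ‖c‖ := by
      have := norm_sub_le u u'
      linarith
    have e4 : ‖u - u'‖ ^ 2 < (2 * ‖c‖) ^ 2 := pow_lt_pow_left₀ e3 (norm_nonneg _) two_ne_zero
    have hcc : 0 < ‖c‖ ^ 2 := by positivity
    have e5 : ‖c ^ 2 + u * u'‖ < 4 := by
      have : ‖c‖ ^ 2 * ‖c ^ 2 + u * u'‖ < ‖c‖ ^ 2 * 4 := by
        rw [← e2]
        nlinarith
      exact lt_of_mul_lt_mul_left this hcc.le
    have e6 : ‖c‖ ^ 2 ≤ ‖c ^ 2 + u * u'‖ + ‖u‖ * ‖u'‖ := by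
      have := norm_sub_le (c ^ 2 + u * u') (u * u')
      rw [add_sub_cancel_right, norm_pow, norm_mul] at this
      exact this
    have e7 : ‖u‖ * ‖u'‖ ≤ (‖c‖ - 3) * (‖c‖ + 3) :=
      mul_le_mul (by linarith) hlt'.le (norm_nonneg _) (by linarith)
    nlinarith
  · have h2 := h.grow h1 (by linarith) (by linarith)
    have h3 : (‖c‖ + 3) ^ 2 ≤ ‖u'‖ ^ 2 := by
      refine le_trans ?_ h2
      have h4 : (‖c‖ + 3) ^ 2 ≤ (2 * ‖c‖) ^ 2 := pow_le_pow_left₀ (by linarith) (by linarith) 2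
      have h5 : 8 ≤ ‖c‖ ^ 2 - 1 := by nlinarith
      have h6 : 8 * ‖c‖ ^ 2 ≤ (‖c‖ ^ 2 - 1) * ‖c‖ ^ 2 :=
        mul_le_mul_of_nonneg_right h5 (by positivity)
      nlinarith [sq_nonneg ‖c‖]
    exact le_of_sq_le_sq h3 (norm_nonneg _)

theorem Sy.re_le {m : ℕ} {u c u' : ℂ} (h : Sy m u c u') (hm : 2 ≤ m) (hu : ‖u‖ ≤ 2)
    (hu' : ‖u'‖ ≤ 2) : c.re ^ 2 ≤ 2 := by
  obtain ⟨X, s, hX, hs, hs1, e1, e3, e4⟩ := h.star hm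
  rw [e3]
  by_contra hlt
  have h1 : 1 / 2 < X * s := by linarith
  have h2 : 1 / 2 < X := by nlinarith
  have h3 : ‖u‖ ^ 2 + ‖u'‖ ^ 2 ≤ 8 := by
    have h31 := pow_le_pow_left₀ (norm_nonneg _) hu 2
    have h32 := pow_le_pow_left₀ (norm_nonneg _) hu' 2
    linarith
  have h4 : 8 * (X * (1 + X)) * (4 * (X + 1 - s)) ≤ (X + s) * 8 := by
    rw [← e1]
    exact e4.trans (mul_le_mul_of_nonneg_left h3 (by linarith))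
  have h5 : 8 * (X * (1 + X)) * (4 * X) ≤ 8 * (X * (1 + X)) * (4 * (X + 1 - s)) :=
    mul_le_mul_of_nonneg_left (by linarith) (by positivity)
  have h6 : (1 + X) * (4 * X ^ 2) ≤ (1 + X) * 1 := by nlinarith
  have h7 : 4 * X ^ 2 ≤ 1 := le_of_mul_le_mul_left h6 (by linarith)
  nlinarith

end Pool.Agent.PT42
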