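import Pool.Agent.PT42.Grow2

/-!
# PT42/Lin3: a linear inequality for the neighbour of a large term
-/

set_option autoImplicit false

namespace Pool.Agent.PT42

open Pool.Agent.DFJ Pool.Agent.TBK

/-- the real inequality behind `Sy.lin` -/
theorem lin3_real {R C V X s q : ℝ} (hR0 : 0 ≤ R) (hR : R ≤ 217 / 100) (hV0 : 0 ≤ V) (hV : V ≤ R + 2)
    (hC : 3 ≤ C) (hX : 0 ≤ X) (hs1 : s ≤ 1)
    (e3 : q = 4 * (X * s)) (e4 : 8 * (X * (1 + X)) * R ^ 2 ≤ (X + s) * (V ^ 2 + C)) (hq : q ≤ R ^ 2) :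
    2 * q + 4 / 5 * R ^ 2 ≤ 81 / 10 + 7 / 20 * (C - 3) := by
  by_cases hR1 : R ≤ 17 / 10
  · nlinarith
  · have hR1' := not_le.1 hR1
    have hR2 : (17 / 10) ^ 2 < R ^ 2 := pow_lt_pow_left₀ hR1' (by norm_num) two_ne_zero
    have hVC : 0 ≤ V ^ 2 + C := by positivity
    have hW : 2 * q * R ^ 2 ≤ V ^ 2 + C := by
      rcases hX.eq_or_lt with h0 | h0
      · have : q = 0 := by rw [e3, ← h0]; ring
        rw [this]
        linarith
      · have h1 : 8 * (X * (1 + X)) * R ^ 2 ≤ (X + 1) * (V ^ 2 + C) :=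
          e4.trans (mul_le_mul_of_nonneg_right (by linarith) hVC)
        have h2 : 8 * X * R ^ 2 ≤ V ^ 2 + C := by
          have : (X + 1) * (8 * X * R ^ 2) ≤ (X + 1) * (V ^ 2 + C) := by linarith
          exact le_of_mul_le_mul_left this (by linarith)
        have h3 : 2 * q * R ^ 2 = 8 * X * R ^ 2 * s := by rw [e3]; ring
        rw [h3]
        calc 8 * X * R ^ 2 * s ≤ 8 * X * R ^ 2 * 1 :=
              mul_le_mul_of_nonneg_left hs1 (by positivity)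
          _ ≤ V ^ 2 + C := by linarith
    have hV2 : V ^ 2 ≤ (R + 2) ^ 2 := pow_le_pow_left₀ hV0 hV 2
    have hpoly : 4 / 5 * R ^ 4 - 71 / 10 * R ^ 2 + 4 * R + 7 ≤ 0 := by
      nlinarith [mul_nonneg (sub_nonneg.2 hR1'.le) (sub_nonneg.2 hR), sq_nonneg R,
        mul_nonneg (mul_nonneg (sub_nonneg.2 hR1'.le) (sub_nonneg.2 hR)) (sq_nonneg R),
        mul_nonneg (mul_nonneg (sub_nonneg.2 hR1'.le) (sub_nonneg.2 hR)) hR0]
    have hC2 : 0 ≤ (C - 3) * (7 / 20 * R ^ 2 - 1) :=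
      mul_nonneg (by linarith) (by linarith)
    have key : R ^ 2 * (2 * q + 4 / 5 * R ^ 2) ≤ R ^ 2 * (81 / 10 + 7 / 20 * (C - 3)) := by
      nlinarith
    exact le_of_mul_le_mul_left key (by nlinarith)

theorem Sy.lin {m : ℕ} {v u c : ℂ} (h : Sy m v u c) (hm : 2 ≤ m) (hu : ‖u‖ ≤ 217 / 100)
    (hv : ‖v‖ ≤ ‖u‖ + 2) (hc : 3 ≤ ‖c‖ ^ 2) :
    (u ^ 2).re + 9 / 5 * ‖u‖ ^ 2 ≤ 81 / 10 + 7 / 20 * (‖c‖ ^ 2 - 3) := by
  obtain ⟨X, s, hX, -, hs1, -, e3, e4⟩ := h.star hm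
  have hn : ‖u‖ ^ 2 = u.re ^ 2 + u.im ^ 2 := by
    rw [Complex.sq_norm, Complex.normSq_apply]; ring
  have hre : (u ^ 2).re = u.re ^ 2 - u.im ^ 2 := by
    rw [pow_two, Complex.mul_re]; ring
  have h1 := lin3_real (norm_nonneg u) hu (norm_nonneg v) hv hc hX hs1 e3 e4
    (by nlinarith [sq_nonneg u.im])
  rw [hre]
  linarith

end Pool.Agent.PT42
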