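import Pool.Agent.PT42.Defs

/-!
# PT42/Loc: the local estimate

If `u, c, u'` are consecutive terms with parameter of absolute value 2, `‖u‖, ‖u'‖ ≤ 2` and
`(Re u)², (Re u')² ≤ 2`, then `‖c² + 4‖ > 1`.
-/

set_option autoImplicit false

namespace Pool.Agent.PT42

open Pool.Agent.DFJ Pool.Agent.TBK

theorem loc_poly {a : ℝ} (h0 : 0 ≤ a) (h1 : a ≤ 1) :
    0 < 224 - 560 * a + 396 * a ^ 2 - 52 * a ^ 3 := by
  nlinarith [mul_nonneg (sub_nonneg.2 h1) (sq_nonneg (a - 17 / 20)), sq_nonneg (a - 17 / 20),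
    sq_nonneg (a - 849 / 1000)]

theorem Sy.loc {u c u' : ℂ} (h : Sy 2 u c u') (hu : ‖u‖ ≤ 2) (hu' : ‖u'‖ ≤ 2)
    (hr : u.re ^ 2 ≤ 2) (hr' : u'.re ^ 2 ≤ 2) : 1 < ‖c ^ 2 + 4‖ := by
  by_contra hc
  push Not at hc
  obtain ⟨η, hη⟩ : ∃ η : ℂ, η = c ^ 2 + 4 := ⟨_, rfl⟩
  rw [← hη] at hc
  have hR : (u + u') ^ 2 * (η * (4 - η)) = (η - 2) ^ 2 * (4 * (4 - η) ^ 2 - (u - u') ^ 2) := by
    have h2 : u ^ 2 + u' ^ 2 - ((c ^ 2 + 2) * (c ^ 2 + 2) - 2) * u * u'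
        = ((c ^ 2 + 2) * 1 - 0) ^ 2 * c ^ 4 := h
    rw [hη]
    linear_combination 4 * h2
  obtain ⟨A, hA⟩ : ∃ A : ℝ, A = ‖u + u'‖ ^ 2 := ⟨_, rfl⟩
  obtain ⟨D, hD⟩ : ∃ D : ℝ, D = ‖u - u'‖ ^ 2 := ⟨_, rfl⟩
  have hA0 : 0 ≤ A := by rw [hA]; positivity
  have hD0 : 0 ≤ D := by rw [hD]; positivity
  have hAD : A + D ≤ 16 := by
    have h1 : ‖u‖ ^ 2 ≤ 4 := by nlinarith [norm_nonneg u]
    have h2 : ‖u'‖ ^ 2 ≤ 4 := by nlinarith [norm_nonneg u']
    rw [Complex.sq_norm, Complex.normSq_apply] at h1 h2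
    rw [hA, hD, Complex.sq_norm, Complex.sq_norm, Complex.normSq_apply, Complex.normSq_apply]
    simp only [Complex.add_re, Complex.add_im, Complex.sub_re, Complex.sub_im]
    nlinarith
  have hre : A + ((u + u') ^ 2).re ≤ 16 := by
    rw [hA, Complex.sq_norm, Complex.normSq_apply]
    simp only [sq, Complex.mul_re, Complex.add_re, Complex.add_im]
    nlinarith [sq_nonneg (u.re - u'.re)]
  obtain ⟨N, hN⟩ : ∃ N : ℝ, N = ‖η‖ := ⟨_, rfl⟩
  obtain ⟨M, hM⟩ : ∃ M : ℝ, M = ‖4 - η‖ := ⟨_, rfl⟩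
  obtain ⟨P, hP⟩ : ∃ P : ℝ, P = ‖η - 2‖ ^ 2 := ⟨_, rfl⟩
  have hN0 : 0 ≤ N := by rw [hN]; exact norm_nonneg _
  have hN1 : N ≤ 1 := by rw [hN]; exact hc
  have hM3 : 3 ≤ M := by
    have h1 : ‖(4 : ℂ)‖ ≤ ‖4 - η‖ + ‖η‖ := by
      simpa using norm_add_le (4 - η) η
    have h2 : ‖(4 : ℂ)‖ = 4 := by simp
    rw [hM]; linarith
  have hP1 : 1 ≤ P := by
    have h1 : ‖(2 : ℂ)‖ ≤ ‖η - 2‖ + ‖η‖ := by
      have := norm_sub_le η (η - 2)
      simp only [sub_sub_cancel] at this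
      linarith
    have h2 : ‖(2 : ℂ)‖ = 2 := by simp
    rw [hP]; nlinarith [norm_nonneg (η - 2)]
  -- the norm inequality
  have hn : P * (4 * M ^ 2 - D) ≤ A * (N * M) := by
    have h1 : A * (N * M) = P * ‖4 * (4 - η) ^ 2 - (u - u') ^ 2‖ := by
      rw [hA, hN, hM, hP, ← norm_pow, ← norm_pow, ← norm_mul, ← norm_mul, ← norm_mul, hR]
    rw [h1]
    refine mul_le_mul_of_nonneg_left ?_ (by linarith)
    have h2 := norm_sub_norm_le (4 * (4 - η) ^ 2) ((u - u') ^ 2)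
    rw [norm_mul, norm_pow, norm_pow, ← hM, ← hD] at h2
    simpa using h2
  -- step 1
  have hPM : P * M ≤ 4 * N := by
    have h1 : P * (4 * M ^ 2 - D) ≤ (16 - D) * (N * M) :=
      hn.trans (mul_le_mul_of_nonneg_right (by linarith) (by positivity))
    rcases le_total P (N * M) with h2 | h2
    · have h3 : P * (4 * M ^ 2) ≤ 16 * (N * M) := by nlinarith
      by_contra h4
      push Not at h4
      nlinarith
    · exfalso
      have h3 : (16 - D) * (N * M) ≤ (16 - D) * P := mul_le_mul_of_nonneg_left h2 (by linarith)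
      nlinarith [mul_nonneg (by linarith : (0 : ℝ) ≤ P) (by nlinarith : (0 : ℝ) ≤ M ^ 2 - 9)]
  have hNpos : 0 < N := by nlinarith
  have hη0 : η ≠ 0 := by
    intro h0
    rw [h0, norm_zero] at hN
    linarith
  have h4η : (4 - η) ≠ 0 := by
    intro h0
    rw [h0, norm_zero] at hM
    linarith
  obtain ⟨ρ, hρ⟩ : ∃ ρ : ℝ, ρ = P / (N * M) := ⟨_, rfl⟩
  have hρ0 : 0 ≤ ρ := by rw [hρ]; positivity
  have hρ1 : 9 * ρ ≤ 4 := by
    rw [hρ, mul_div_assoc', div_le_iff₀ (by positivity)]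
    nlinarith
  obtain ⟨κ, hκ⟩ : ∃ κ : ℂ, κ = 4 * (η - 2) ^ 2 * (4 - η) / η := ⟨_, rfl⟩
  obtain ⟨E, hE⟩ : ∃ E : ℂ, E = (η - 2) ^ 2 * (u - u') ^ 2 / (η * (4 - η)) := ⟨_, rfl⟩
  have hEn : ‖E‖ = ρ * D := by
    rw [hE, hρ, hD, hP, hN, hM, norm_div, norm_mul, norm_mul, norm_pow, norm_pow]
    ring
  have hSg : (u + u') ^ 2 = κ - E := by
    rw [hκ, hE]
    field_simp
    linear_combination hR
  have hAκ : ‖κ‖ ≤ A + ρ * D := by
    have h1 : κ = (u + u') ^ 2 + E := by rw [hSg]; ring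
    have h2 := norm_add_le ((u + u') ^ 2) E
    rw [← h1, norm_pow, ← hA, hEn] at h2
    exact h2
  have hReκ : κ.re ≤ ((u + u') ^ 2).re + ρ * D := by
    have h1 : κ = (u + u') ^ 2 + E := by rw [hSg]; ring
    have h2 : κ.re = ((u + u') ^ 2).re + E.re := by rw [h1, Complex.add_re]
    have h3 : E.re ≤ ‖E‖ := Complex.re_le_norm E
    rw [hEn] at h3
    linarith
  -- step 2
  have hS2 : 13 * ‖κ‖ + 5 * κ.re ≤ 208 := by
    nlinarith [mul_nonneg (sub_nonneg.2 hρ1) hD0]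
  -- step 3
  have hκn : ‖κ‖ * N = 4 * P * M := by
    rw [hκ, norm_div, norm_mul, norm_mul, norm_pow, ← hN, ← hM, ← hP]
    have : ‖(4 : ℂ)‖ = 4 := by simp
    rw [this]
    field_simp
  have hκre : κ.re = 4 * (η.im ^ 2 - η.re ^ 2 + 8 * η.re - 20 + 16 * η.re / N ^ 2) := by
    have h1 : κ = 4 * (-η ^ 2 + 8 * η - 20 + 16 * η⁻¹) := by
      rw [hκ]; field_simp; ring
    rw [h1, hN, Complex.sq_norm]
    simp only [sq, Complex.mul_re, Complex.add_re, Complex.sub_re, Complex.neg_re, Complex.add_im,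
      Complex.sub_im, Complex.neg_im, Complex.mul_im, Complex.inv_re, Complex.inv_im]
    norm_num
    ring
  have hN2 : N ^ 2 = η.re ^ 2 + η.im ^ 2 := by
    rw [hN, Complex.sq_norm, Complex.normSq_apply]; ring
  have hP2 : P = (2 - η.re) ^ 2 + η.im ^ 2 := by
    rw [hP, Complex.sq_norm, Complex.normSq_apply]; simp; ring
  have hM2 : 4 - η.re ≤ M := by
    have := Complex.re_le_norm (4 - η)
    simp only [Complex.sub_re, Complex.re_ofNat] at this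
    rw [hM]; exact this
  have hre1 : η.re ≤ 1 := by
    have := Complex.re_le_norm η
    linarith
  rcases lt_or_ge η.re 0 with ha | ha
  · have h1 : 4 ≤ P := by rw [hP2]; nlinarith [sq_nonneg η.im]
    nlinarith
  · have hκ2 : 4 * ((2 - η.re) ^ 2 + η.im ^ 2) * (4 - η.re) ≤ ‖κ‖ := by
      have h1 : 4 * P * M ≤ ‖κ‖ := by rw [← hκn]; nlinarith [norm_nonneg κ]
      rw [← hP2]
      nlinarith
    have hκ3 : 4 * (η.im ^ 2 - η.re ^ 2 + 24 * η.re - 20) ≤ κ.re := by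
      have h1 : 16 * η.re ≤ 16 * η.re / N ^ 2 := by
        have h2 : N ^ 2 ≤ 1 := by nlinarith
        rw [le_div_iff₀ (by positivity)]
        nlinarith [mul_nonneg ha (sub_nonneg.2 h2)]
      rw [hκre]; linarith
    have := loc_poly ha hre1
    nlinarith [sq_nonneg η.im, mul_nonneg (sq_nonneg η.im) (by linarith : (0 : ℝ) ≤ 4 - η.re)]

end Pool.Agent.PT42
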