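import Pool.Agent.PT42.Defs

/-!
# PT42/Loc3: a parameter of absolute value 2 between small neighbours, third version
-/

set_option autoImplicit false

namespace Pool.Agent.PT42

open Pool.Agent.DFJ Pool.Agent.TBK

theorem loc3_poly {a q : ℝ} (ha : 0 ≤ a) (haq : a ^ 2 ≤ q) (hq : q ≤ 1) :
    67 / 2 ≤ 18 / 5 * (4 - 4 * a + q) * (4 - a) * (3 - q) +
      4 * (q - 2 * a ^ 2 + 8 * a - 20 + 16 * a * (2 - q)) - 7 / 30 * (7 - 8 * a + q) := by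
  have ha1 : a ≤ 1 := by nlinarith
  have h1 : 0 ≤ (1 - q) * (18 / 5 * (4 - a) * (2 + q - 4 * a) - 4 + 64 * a + 7 / 30) := by
    apply mul_nonneg (by linarith)
    have h2 : 0 ≤ (4 - a) * (q - a ^ 2) := mul_nonneg (by linarith) (by linarith)
    nlinarith [sq_nonneg a, mul_nonneg (sq_nonneg a) (sub_nonneg.2 ha1)]
  nlinarith [mul_nonneg (sub_nonneg.2 ha1) (by linarith : (0 : ℝ) ≤ 488 / 15 - 104 / 5 * a)]

theorem loc3_t {t : ℝ} (ht : 0 ≤ t) : t * (3 - t ^ 2) ≤ 2 := by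
  nlinarith [mul_nonneg (sq_nonneg (t - 1)) (by linarith : (0 : ℝ) ≤ t + 2)]

theorem loc3_q {a q : ℝ} (ha : 0 ≤ a) (hq : 0 < q) : a * (2 - q) ≤ a / q := by
  rw [le_div_iff₀ hq]
  nlinarith [mul_nonneg ha (sq_nonneg (q - 1))]

theorem loc3_r {r : ℝ} (hr : 3 ≤ r) : 7 / 5 * (r - 3) ≤ 7 / 30 * (r ^ 2 - 9) := by
  nlinarith

theorem loc3_k {ρ r : ℝ} (h : 4 / 9 ≤ ρ) (hr : 9 ≤ r ^ 2) : 16 ≤ 4 * ρ * r ^ 2 := by
  nlinarith

/-- `‖4 - 2 v‖ ≤ ‖4 - v‖` for `v = (e - 2) ^ 2`. -/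
theorem loc3_rot {e : ℂ} (he : ‖e‖ ≤ 1) (hn : ‖e - 2‖ ^ 2 ≤ 157 / 100) :
    ‖4 - 2 * (e - 2) ^ 2‖ ≤ ‖e * (4 - e)‖ := by
  have hns : ∀ z : ℂ, ‖z‖ ^ 2 = z.re ^ 2 + z.im ^ 2 := by
    intro z
    rw [Complex.sq_norm, Complex.normSq_apply]
    ring
  obtain ⟨f, hf⟩ : ∃ f : ℂ, f = 2 - e := ⟨_, rfl⟩
  have he' : e = 2 - f := by rw [hf]; ring
  have h1 : f.re ^ 2 + f.im ^ 2 ≤ 157 / 100 := by
    rw [← hns, hf, norm_sub_rev]
    exact hn
  have h2 : (2 - f.re) ^ 2 + f.im ^ 2 ≤ 1 := by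
    have h3 : ‖e‖ ^ 2 ≤ 1 := by nlinarith [norm_nonneg e]
    rw [hns, he'] at h3
    simp only [Complex.sub_re, Complex.sub_im, Complex.re_ofNat, Complex.im_ofNat] at h3
    linarith
  obtain ⟨v, hv⟩ : ∃ v : ℂ, v = f ^ 2 := ⟨_, rfl⟩
  have e1 : (4 : ℂ) - 2 * (e - 2) ^ 2 = 4 - 2 * v := by rw [hv, hf]; ring
  have e2 : e * (4 - e) = 4 - v := by rw [hv, hf]; ring
  rw [e1, e2]
  apply le_of_sq_le_sq _ (norm_nonneg _)
  rw [hns, hns]
  have hvr : v.re = f.re ^ 2 - f.im ^ 2 := by rw [hv, pow_two, Complex.mul_re]; ring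
  have hvi : v.im = 2 * f.re * f.im := by rw [hv, pow_two, Complex.mul_im]; ring
  simp only [Complex.sub_re, Complex.sub_im, Complex.mul_re, Complex.mul_im, Complex.re_ofNat,
    Complex.im_ofNat, zero_mul, sub_zero, add_zero, zero_sub, hvr, hvi]
  obtain ⟨x, hx⟩ : ∃ x : ℝ, x = f.re := ⟨_, rfl⟩
  obtain ⟨y, hy⟩ : ∃ y : ℝ, y = f.im := ⟨_, rfl⟩
  rw [← hx, ← hy] at h1 h2 ⊢
  obtain ⟨n, hn'⟩ : ∃ n : ℝ, n = x ^ 2 + y ^ 2 := ⟨_, rfl⟩
  have h3 : (3 + n) / 4 ≤ x := by rw [hn']; nlinarith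
  have hn0 : 0 ≤ n := by rw [hn']; positivity
  have hn1 : n ≤ 157 / 100 := by rw [hn']; exact h1
  have h4 : (3 + n) ^ 2 / 16 ≤ x ^ 2 := by nlinarith
  have h5 : 3 * n ^ 2 ≤ 8 * (2 * x ^ 2 - n) := by nlinarith
  have h6 : y ^ 2 = n - x ^ 2 := by rw [hn']; ring
  have h7 : (x ^ 2 - y ^ 2) ^ 2 + (2 * x * y) ^ 2 = n ^ 2 := by rw [hn']; ring
  nlinarith

theorem Sy.loc3 {u c u' : ℂ} (h : Sy 2 u c u') (hu : ‖u‖ ≤ 217 / 100) (hu' : ‖u'‖ ≤ 217 / 100)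
    (hl : 3 ≤ ‖c‖ ^ 2 → (u ^ 2).re + 9 / 5 * ‖u‖ ^ 2 ≤ 81 / 10 + 7 / 20 * (‖c‖ ^ 2 - 3))
    (hl' : 3 ≤ ‖c‖ ^ 2 → (u' ^ 2).re + 9 / 5 * ‖u'‖ ^ 2 ≤ 81 / 10 + 7 / 20 * (‖c‖ ^ 2 - 3)) :
    1 < ‖c ^ 2 + 4‖ := by
  by_contra hcon
  push Not at hcon
  obtain ⟨e, he⟩ : ∃ e : ℂ, e = c ^ 2 + 4 := ⟨_, rfl⟩
  rw [← he] at hcon
  have hcon' := hcon
  have hte : te 2 (c ^ 2 + 2) = (e - 2) ^ 2 - 2 := by
    rw [te_step 0, te_one, te_zero, he]
    ring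
  have hal : al 2 (c ^ 2 + 2) = e - 2 := by
    rw [al_step 0, al_one, al_zero, he]
    ring
  unfold Sy at h
  rw [hte, hal] at h
  have hc4 : c ^ 4 = (e - 4) ^ 2 := by rw [he]; ring
  rw [hc4] at h
  obtain ⟨σ, hσ⟩ : ∃ σ : ℂ, σ = u + u' := ⟨_, rfl⟩
  obtain ⟨δ, hδ⟩ : ∃ δ : ℂ, δ = u - u' := ⟨_, rfl⟩
  have R : σ ^ 2 * (e * (4 - e)) = (e - 2) ^ 2 * (4 * (4 - e) ^ 2 - δ ^ 2) := by
    rw [hσ, hδ]
    linear_combination 4 * h
  -- norms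
  obtain ⟨S, hS⟩ : ∃ S : ℝ, S = ‖σ‖ ^ 2 := ⟨_, rfl⟩
  obtain ⟨D, hD⟩ : ∃ D : ℝ, D = ‖δ‖ ^ 2 := ⟨_, rfl⟩
  have hD0 : 0 ≤ D := by rw [hD]; positivity
  have hS0 : 0 ≤ S := by rw [hS]; positivity
  have hn : ∀ z : ℂ, ‖z‖ ^ 2 = z.re ^ 2 + z.im ^ 2 := by
    intro z
    rw [Complex.sq_norm, Complex.normSq_apply]
    ring
  have hpar : S + D = 2 * (‖u‖ ^ 2 + ‖u'‖ ^ 2) := by
    rw [hS, hD, hn, hn, hn, hn, hσ, hδ]
    simp only [Complex.add_re, Complex.add_im, Complex.sub_re, Complex.sub_im]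
    ring
  have hu2 : ‖u‖ ^ 2 ≤ 47089 / 10000 := by nlinarith [norm_nonneg u]
  have hu2' : ‖u'‖ ^ 2 ≤ 47089 / 10000 := by nlinarith [norm_nonneg u']
  have hSD : S + D ≤ 471 / 25 := by linarith
  have hsum : σ ^ 2 + δ ^ 2 = 2 * (u ^ 2 + u' ^ 2) := by rw [hσ, hδ]; ring
  have hsumre : (σ ^ 2 + δ ^ 2).re = 2 * ((u ^ 2).re + (u' ^ 2).re) := by
    rw [hsum]
    simp only [Complex.mul_re, Complex.add_re, Complex.re_ofNat, Complex.im_ofNat, zero_mul,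
      sub_zero]
  obtain ⟨t, ht⟩ : ∃ t : ℝ, t = ‖e‖ := ⟨_, rfl⟩
  obtain ⟨r, hrr⟩ : ∃ r : ℝ, r = ‖4 - e‖ := ⟨_, rfl⟩
  obtain ⟨n, hnn⟩ : ∃ n : ℝ, n = ‖e - 2‖ ^ 2 := ⟨_, rfl⟩
  rw [← ht] at hcon
  have hrc : ‖c‖ ^ 2 = r := by
    rw [hrr, ← norm_pow, ← norm_neg, he]
    congr 1
    ring
  have hr3 : 3 ≤ r := by
    have h1 : ‖(4 : ℂ)‖ ≤ ‖4 - e‖ + ‖e‖ := by
      have := norm_add_le (4 - e) e
      rwa [sub_add_cancel] at this
    have h2 : ‖(4 : ℂ)‖ = 4 := by norm_num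
    rw [h2, ← hrr, ← ht] at h1
    linarith
  rw [hrc] at hl hl'
  have hl1 := hl hr3
  have hl2 := hl' hr3
  have hn1 : 1 ≤ n := by
    have h1 : ‖(2 : ℂ)‖ ≤ ‖e - 2‖ + ‖e‖ := by
      have := norm_sub_le e (e - 2)
      rw [sub_sub_cancel] at this
      linarith
    have h2 : ‖(2 : ℂ)‖ = 2 := by norm_num
    rw [h2, ← ht] at h1
    rw [hnn]
    nlinarith
  have he0 : e ≠ 0 := by
    rintro rfl
    have h1 : δ ^ 2 = 64 := by linear_combination (1 / 4) * R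
    have h2 : D = 64 := by
      rw [hD, ← norm_pow, h1]
      norm_num
    linarith
  have ht0 : 0 < t := by rw [ht]; exact norm_pos_iff.2 he0
  have hr0 : 0 < r := by linarith
  -- first step
  have hnorm : n * (4 * r ^ 2 - D) ≤ S * (t * r) := by
    have h1 := congrArg norm R
    rw [norm_mul, norm_mul, norm_mul, norm_pow, norm_pow, ← hS, ← hnn, ← ht, ← hrr] at h1
    rw [h1]
    apply mul_le_mul_of_nonneg_left _ (by linarith)
    have h2 := norm_sub_norm_le (4 * (4 - e) ^ 2) (δ ^ 2)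
    rw [norm_mul, norm_pow, norm_pow, ← hrr, ← hD] at h2
    have h3 : ‖(4 : ℂ)‖ = 4 := by norm_num
    rw [h3] at h2
    exact h2
  have htr : 0 < t * r := mul_pos ht0 hr0
  obtain ⟨ρ, hρ⟩ : ∃ ρ : ℝ, ρ = n / (t * r) := ⟨_, rfl⟩
  have hρn : n = ρ * (t * r) := by rw [hρ, div_mul_cancel₀ _ htr.ne']
  have hρ0 : 0 < ρ := by rw [hρ]; positivity
  have hA : ρ * (4 * r ^ 2 - D) ≤ S := by
    have h1 : (ρ * (4 * r ^ 2 - D)) * (t * r) ≤ S * (t * r) := by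
      calc (ρ * (4 * r ^ 2 - D)) * (t * r) = n * (4 * r ^ 2 - D) := by rw [hρn]; ring
        _ ≤ _ := hnorm
    exact le_of_mul_le_mul_right h1 htr
  have hr9 : 9 ≤ r ^ 2 := by nlinarith
  have hρ1 : ρ ≤ 1 := by
    by_contra hgt
    push Not at hgt
    have h1 : 0 ≤ 4 * r ^ 2 - D := by linarith
    have h2 := mul_le_mul_of_nonneg_right hgt.le h1
    linarith
  obtain ⟨k, hk⟩ : ∃ k : ℝ, k = 4 * ρ * r ^ 2 := ⟨_, rfl⟩
  have hi : k + (1 - ρ) * D ≤ 471 / 25 := by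
    rw [hk]
    linarith
  have hk16 : k ≤ 471 / 25 := by
    have h1 : 0 ≤ (1 - ρ) * D := mul_nonneg (by linarith) hD0
    linarith
  have hρ2 : ρ ≤ 157 / 300 := by
    rw [hk] at hk16
    have h1 := mul_le_mul_of_nonneg_left hr9 hρ0.le
    linarith
  have hkt : k * t = 4 * n * r := by
    rw [hk, hρn]
    ring
  have hn157 : n ≤ 157 / 100 := by
    have h1 : k * t ≤ 471 / 25 := by
      have hk0 : 0 ≤ k := by rw [hk]; positivity
      calc k * t ≤ k * 1 := mul_le_mul_of_nonneg_left hcon hk0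
        _ ≤ 471 / 25 := by linarith
    rw [hkt] at h1
    have h2 : n * 3 ≤ n * r := mul_le_mul_of_nonneg_left hr3 (by linarith)
    linarith
  -- second step
  obtain ⟨κ, hκ⟩ : ∃ κ : ℂ, κ = 4 * (-e ^ 2 + 8 * e - 20 + 16 * e⁻¹) := ⟨_, rfl⟩
  have h4e : (4 : ℂ) - e ≠ 0 := by
    intro h0
    rw [h0, norm_zero] at hrr
    linarith
  have hκ2 : κ * e = 4 * (e - 2) ^ 2 * (4 - e) := by
    rw [hκ]
    field_simp
    ring
  have hnκ : ‖κ‖ = k := by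
    have h1 := congrArg norm hκ2
    rw [norm_mul, norm_mul, norm_mul, norm_pow, ← hnn, ← ht, ← hrr] at h1
    have h3 : ‖(4 : ℂ)‖ = 4 := by norm_num
    rw [h3, hρn] at h1
    have h4 : ‖κ‖ * t = k * t := by rw [h1, hk]; ring
    exact mul_right_cancel₀ ht0.ne' h4
  have hd1 : (κ - σ ^ 2) * (e * (4 - e)) = (e - 2) ^ 2 * δ ^ 2 := by
    rw [sub_mul, R, ← mul_assoc, hκ2]
    ring
  have hdiff : ‖κ - σ ^ 2‖ = ρ * D := by
    have h2 := congrArg norm hd1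
    rw [norm_mul, norm_mul, norm_mul, norm_pow, norm_pow, ← hnn, ← ht, ← hrr, ← hD, hρn] at h2
    have h3 : ‖κ - σ ^ 2‖ * (t * r) = ρ * D * (t * r) := by rw [h2]; ring
    exact mul_right_cancel₀ htr.ne' h3
  have hrot : ‖κ - σ ^ 2 - δ ^ 2‖ ≤ D := by
    have h1 : (κ - σ ^ 2 - δ ^ 2) * (e * (4 - e)) = -(δ ^ 2 * (4 - 2 * (e - 2) ^ 2)) := by
      rw [sub_mul, hd1]
      ring
    have h2 : ‖κ - σ ^ 2 - δ ^ 2‖ * ‖e * (4 - e)‖ = D * ‖4 - 2 * (e - 2) ^ 2‖ := by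
      rw [← norm_mul, h1, norm_neg, norm_mul, norm_pow, ← hD]
    have h3 : ‖κ - σ ^ 2 - δ ^ 2‖ * ‖e * (4 - e)‖ ≤ D * ‖e * (4 - e)‖ := by
      rw [h2]
      exact mul_le_mul_of_nonneg_left (loc3_rot hcon' (by rw [← hnn]; exact hn157)) hD0
    have h4 : 0 < ‖e * (4 - e)‖ := norm_pos_iff.2 (mul_ne_zero he0 h4e)
    exact le_of_mul_le_mul_right h3 h4
  have hI : κ.re + 9 / 5 * k + D * (4 / 5 - 9 / 5 * ρ) ≤ 162 / 5 + 7 / 5 * (r - 3) := by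
    have h1 := Complex.re_le_norm (κ - σ ^ 2 - δ ^ 2)
    have h1' : κ.re - D ≤ (σ ^ 2 + δ ^ 2).re := by
      have h5 : (κ - σ ^ 2 - δ ^ 2).re = κ.re - (σ ^ 2 + δ ^ 2).re := by
        simp only [Complex.sub_re, Complex.add_re]
        ring
      rw [h5] at h1
      linarith
    rw [hsumre] at h1'
    have h2 := norm_sub_norm_le κ (σ ^ 2)
    rw [hdiff, hnκ, norm_pow, ← hS] at h2
    linarith
  have hfin : κ.re + 9 / 5 * k ≤ 133 / 4 + 7 / 5 * (r - 3) := by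
    have h0 : -(17 / 20) ≤ D * (4 / 5 - 9 / 5 * ρ) := by
      by_cases h49 : ρ ≤ 4 / 9
      · have h1 : 0 ≤ D * (4 / 5 - 9 / 5 * ρ) := mul_nonneg hD0 (by linarith)
        linarith
      · push Not at h49
        have h1 : 16 ≤ k := by
          rw [hk]
          exact loc3_k h49.le hr9
        have h2 : (1 - ρ) * D ≤ 71 / 25 := by linarith
        have h3 : 143 / 300 * D ≤ (1 - ρ) * D := mul_le_mul_of_nonneg_right (by linarith) hD0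
        have h4 : D ≤ 6 := by linarith
        have h5 : D * (9 / 5 * ρ - 4 / 5) ≤ 71 / 25 * (300 / 143) * (9 / 5 * (157 / 300) - 4 / 5) := by
          apply mul_le_mul _ (by linarith) (by linarith) (by norm_num)
          linarith
        have h6 : (71 / 25 * (300 / 143) * (9 / 5 * (157 / 300) - 4 / 5) : ℝ) ≤ 17 / 20 := by
          norm_num
        linarith
    linarith
  -- third step
  obtain ⟨a, haa⟩ : ∃ a : ℝ, a = e.re := ⟨_, rfl⟩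
  obtain ⟨q, hqq⟩ : ∃ q : ℝ, q = t ^ 2 := ⟨_, rfl⟩
  have hq : q = e.re ^ 2 + e.im ^ 2 := by rw [hqq, ht, hn]
  have haq : a ^ 2 ≤ q := by rw [hq, haa]; nlinarith [sq_nonneg e.im]
  have hq1 : q ≤ 1 := by rw [hqq]; nlinarith
  have hq0 : 0 < q := by rw [hqq]; positivity
  have hnq : n = 4 - 4 * a + q := by
    rw [hnn, hn, hq, haa]
    simp only [Complex.sub_re, Complex.sub_im, Complex.re_ofNat, Complex.im_ofNat]
    ring
  have hrq : r ^ 2 = 16 - 8 * a + q := by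
    rw [hrr, hn, hq, haa]
    simp only [Complex.sub_re, Complex.sub_im, Complex.re_ofNat, Complex.im_ofNat]
    ring
  have hr6 : 7 / 5 * (r - 3) ≤ 7 / 30 * (7 - 8 * a + q) := by
    have h1 : 7 - 8 * a + q = r ^ 2 - 9 := by rw [hrq]; ring
    rw [h1]
    exact loc3_r hr3
  have hr4 : 4 - a ≤ r := by
    have h1 := Complex.re_le_norm (4 - e)
    rw [Complex.sub_re, Complex.re_ofNat, ← hrr, ← haa] at h1
    exact h1
  have ha0 : 0 ≤ a := by linarith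
  have hk2 : 2 * n * (4 - a) * (3 - q) ≤ k := by
    have h0 : 0 ≤ 4 - a := by
      have h3 := Complex.re_le_norm e
      rw [← haa, ← ht] at h3
      linarith
    have h1 : t * (3 - q) ≤ 2 := by
      rw [hqq]
      exact loc3_t ht0.le
    have h2 : (2 * n * (4 - a) * (3 - q)) * t ≤ k * t := by
      rw [hkt]
      calc (2 * n * (4 - a) * (3 - q)) * t = (2 * n * (4 - a)) * (t * (3 - q)) := by ring
        _ ≤ (2 * n * (4 - a)) * 2 := by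
            apply mul_le_mul_of_nonneg_left h1
            have : 0 ≤ n := by linarith
            positivity
        _ = 4 * n * (4 - a) := by ring
        _ ≤ 4 * n * r := by
            apply mul_le_mul_of_nonneg_left hr4
            linarith
    exact le_of_mul_le_mul_right h2 ht0
  have hκre : 4 * (q - 2 * a ^ 2 + 8 * a - 20 + 16 * a * (2 - q)) ≤ κ.re := by
    have h1 : κ.re = 4 * (-(a ^ 2 - e.im ^ 2) + 8 * a - 20 + 16 * (a / q)) := by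
      rw [hκ, haa]
      have h2 : (e⁻¹).re = e.re / q := by
        rw [Complex.inv_re, Complex.normSq_apply, hq]
        congr 1
        ring
      have h3 : (e ^ 2).re = e.re ^ 2 - e.im ^ 2 := by
        rw [pow_two, Complex.mul_re]
        ring
      simp only [Complex.mul_re, Complex.add_re, Complex.sub_re, Complex.neg_re, Complex.re_ofNat,
        Complex.im_ofNat, zero_mul, sub_zero, h2, h3]
    have h4 : a * (2 - q) ≤ a / q := loc3_q ha0 hq0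
    have h5 : e.im ^ 2 = q - a ^ 2 := by rw [hq, haa]; ring
    rw [h1, h5]
    linarith
  have hpoly := loc3_poly ha0 haq hq1
  rw [hnq] at hk2
  linarith

end Pool.Agent.PT42
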