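import Mathlib

set_option autoImplicit false

/-!
# PT42/Poly3: the final polynomial inequality of the three-entry window
-/

namespace Pool.PT42

theorem loc3_one {a : ℝ} (_ha : 0 ≤ a) (h1 : a ≤ 1) :
    0 ≤ 18 / 5 * (4 - 4 * a + 1) * (4 - a) * (3 - 1) +
      4 * (1 - 2 * a ^ 2 + 8 * a - 20 + 16 * a * (2 - 1)) - 7 / 30 * (7 - 8 * a + 1) - 67 / 2 := by
  nlinarith [mul_nonneg _ha (sub_nonneg.mpr h1), sq_nonneg (1 - a)]

theorem loc3_sq {a : ℝ} (ha : 0 ≤ a) (h1 : a ≤ 1) :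
    0 ≤ 18 / 5 * (4 - 4 * a + a ^ 2) * (4 - a) * (3 - a ^ 2) +
      4 * (a ^ 2 - 2 * a ^ 2 + 8 * a - 20 + 16 * a * (2 - a ^ 2)) - 7 / 30 * (7 - 8 * a + a ^ 2) - 67 / 2 := by
  have hb : 0 ≤ 1 - a := sub_nonneg.mpr h1
  nlinarith [mul_nonneg ha hb, mul_nonneg (mul_nonneg ha ha) hb, mul_nonneg (mul_nonneg (mul_nonneg ha ha) ha) hb,
    mul_nonneg ha (mul_nonneg hb hb), mul_nonneg hb hb, mul_nonneg hb (mul_nonneg hb hb),
    mul_nonneg (mul_nonneg ha ha) (mul_nonneg hb hb), mul_nonneg (mul_nonneg hb hb) (mul_nonneg hb hb),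
    mul_nonneg ha (mul_nonneg hb (mul_nonneg hb hb)),
    mul_nonneg (mul_nonneg hb hb) (mul_nonneg hb (mul_nonneg hb hb)),
    mul_nonneg (mul_nonneg ha ha) (mul_nonneg hb (mul_nonneg hb hb)),
    mul_nonneg ha (mul_nonneg (mul_nonneg hb hb) (mul_nonneg hb hb)),
    mul_nonneg (mul_nonneg (mul_nonneg ha ha) ha) (mul_nonneg hb hb),
    mul_nonneg (mul_nonneg (mul_nonneg ha ha) (mul_nonneg ha ha)) hb]

theorem loc3_poly {a q : ℝ} (ha : 0 ≤ a) (haq : a ^ 2 ≤ q) (hq : q ≤ 1) :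
    67 / 2 ≤ 18 / 5 * (4 - 4 * a + q) * (4 - a) * (3 - q) +
      4 * (q - 2 * a ^ 2 + 8 * a - 20 + 16 * a * (2 - q)) - 7 / 30 * (7 - 8 * a + q) := by
  have h1 : a ≤ 1 := by nlinarith
  have A := loc3_one ha h1
  have B := loc3_sq ha h1
  rcases haq.eq_or_lt with h | h
  · rw [← h]
    linarith
  have hd : 0 < 1 - a ^ 2 := by linarith
  have key : (1 - a ^ 2) * (18 / 5 * (4 - 4 * a + q) * (4 - a) * (3 - q) +
      4 * (q - 2 * a ^ 2 + 8 * a - 20 + 16 * a * (2 - q)) - 7 / 30 * (7 - 8 * a + q) - 67 / 2) =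
      (1 - q) * (18 / 5 * (4 - 4 * a + a ^ 2) * (4 - a) * (3 - a ^ 2) +
      4 * (a ^ 2 - 2 * a ^ 2 + 8 * a - 20 + 16 * a * (2 - a ^ 2)) - 7 / 30 * (7 - 8 * a + a ^ 2) - 67 / 2) +
      (q - a ^ 2) * (18 / 5 * (4 - 4 * a + 1) * (4 - a) * (3 - 1) +
      4 * (1 - 2 * a ^ 2 + 8 * a - 20 + 16 * a * (2 - 1)) - 7 / 30 * (7 - 8 * a + 1) - 67 / 2) +
      (1 - a ^ 2) * (18 / 5 * (4 - a) * ((1 - q) * (q - a ^ 2))) := by
    ring
  have h5 : 0 ≤ (1 - a ^ 2) * (18 / 5 * (4 - 4 * a + q) * (4 - a) * (3 - q) +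
      4 * (q - 2 * a ^ 2 + 8 * a - 20 + 16 * a * (2 - q)) - 7 / 30 * (7 - 8 * a + q) - 67 / 2) := by
    rw [key]
    have h2 : 0 ≤ 1 - q := by linarith
    have h3 : 0 ≤ q - a ^ 2 := by linarith
    have h4 : 0 ≤ 4 - a := by linarith
    have := mul_nonneg h2 B
    have := mul_nonneg h3 A
    have := mul_nonneg hd.le (mul_nonneg (mul_nonneg (by norm_num : (0:ℝ) ≤ 18 / 5) h4) (mul_nonneg h2 h3))
    linarith
  have := nonneg_of_mul_nonneg_right h5 hd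
  linarith

end Pool.PT42
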