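import Pool.Agent.PT42.Grow
import Pool.Agent.PT42.Loc

/-!
# PT42/Win: the window lemma

A chain `F 0 = 0, F 1, …, F n, F (n + 1) = 0`.  If the parameters within distance 3 of `i` are at
least 2 and the one at `i` is 2, then `‖F i ^ 2 + 4‖ > 1`.
-/

set_option autoImplicit false

namespace Pool.Agent.PT42

open Pool.Agent.DFJ Pool.Agent.TBK

theorem esc_right {n : ℕ} {F : ℕ → ℂ} {m : ℕ → ℕ}
    (hS : ∀ j, 1 ≤ j → j ≤ n → Sy (m j) (F (j - 1)) (F j) (F (j + 1)))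
    (hm : ∀ j, 1 ≤ j → j ≤ n → 1 ≤ m j) (hend : F (n + 1) = 0) {k : ℕ} (hk : 1 ≤ k) (hkn : k ≤ n)
    (h2 : 2 ≤ m k) (h2' : k + 1 ≤ n → 2 ≤ m (k + 1)) (hu : ‖F (k - 1)‖ ≤ ‖F k‖) :
    ‖F k‖ ≤ 2 := by
  by_contra hgt
  push Not at hgt
  have g1 := (hS k hk hkn).grow h2 hgt hu
  have e1 : 3 * ‖F k‖ ^ 2 ≤ ‖F (k + 1)‖ ^ 2 := by
    have h4 : 4 ≤ ‖F k‖ ^ 2 := by nlinarith
    nlinarith [sq_nonneg ‖F k‖]
  have hne : F (k + 1) ≠ 0 := by
    intro h
    rw [h, norm_zero] at e1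
    nlinarith
  have hkn' : k + 1 ≤ n := by
    rcases Nat.lt_or_ge k n with h | h
    · exact h
    · exact absurd (by rw [le_antisymm hkn h]; exact hend) hne
  have hle : ‖F k‖ ≤ ‖F (k + 1)‖ := by
    refine le_of_sq_le_sq ?_ (norm_nonneg _)
    nlinarith [sq_nonneg ‖F k‖]
  have hgt1 : 3 < ‖F (k + 1)‖ := by
    by_contra hc
    push Not at hc
    have : ‖F (k + 1)‖ ^ 2 ≤ 9 := by nlinarith [norm_nonneg (F (k + 1))]
    nlinarith
  have g2 := (hS (k + 1) (by omega) hkn').grow (h2' hkn') (by linarith)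
    (by simpa using hle)
  have hbase : ‖F (k + 1)‖ + 3 ≤ ‖F (k + 2)‖ := by
    refine le_of_sq_le_sq ?_ (norm_nonneg _)
    have h9 : 9 ≤ ‖F (k + 1)‖ ^ 2 := by nlinarith
    have h8 : 8 * ‖F (k + 1)‖ ^ 2 ≤ (‖F (k + 1)‖ ^ 2 - 1) * ‖F (k + 1)‖ ^ 2 := by
      nlinarith [sq_nonneg ‖F (k + 1)‖]
    have h7 : (‖F (k + 1)‖ + 3) ^ 2 ≤ 8 * ‖F (k + 1)‖ ^ 2 := by nlinarith
    exact h7.trans (h8.trans g2)
  have hind : ∀ d, k + 1 + d ≤ n → ‖F (k + 1 + d)‖ + 3 ≤ ‖F (k + 1 + d + 1)‖ := by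
    intro d
    induction d with
    | zero => intro _; exact hbase
    | succ d ih =>
      intro hd
      have h1 := ih (by omega)
      exact (hS (k + 1 + d + 1) (by omega) hd).esc (hm _ (by omega) hd) (by simpa using h1)
  have hlast := hind (n - (k + 1)) (by omega)
  have he : k + 1 + (n - (k + 1)) = n := by omega
  rw [he, hend, norm_zero] at hlast
  have := norm_nonneg (F n)
  linarith

theorem esc_left {n : ℕ} {F : ℕ → ℂ} {m : ℕ → ℕ}
    (hS : ∀ j, 1 ≤ j → j ≤ n → Sy (m j) (F (j - 1)) (F j) (F (j + 1)))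
    (hm : ∀ j, 1 ≤ j → j ≤ n → 1 ≤ m j) (h0 : F 0 = 0) {k : ℕ} (hk : 1 ≤ k) (hkn : k ≤ n)
    (h2 : 2 ≤ m k) (h2' : 2 ≤ k → 2 ≤ m (k - 1)) (hu : ‖F (k + 1)‖ ≤ ‖F k‖) :
    ‖F k‖ ≤ 2 := by
  have key := esc_right (n := n) (F := fun j => F (n + 1 - j)) (m := fun j => m (n + 1 - j))
    (fun j h1 hj => by
      have h := (hS (n + 1 - j) (by omega) (by omega)).symm
      have e1 : n + 1 - j + 1 = n + 1 - (j - 1) := by omega
      have e2 : n + 1 - j - 1 = n + 1 - (j + 1) := by omega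
      rw [e1, e2] at h
      exact h)
    (fun j h1 hj => hm _ (by omega) (by omega)) (by simpa using h0) (k := n + 1 - k)
    (by omega) (by omega)
    (by
      have e : n + 1 - (n + 1 - k) = k := by omega
      show 2 ≤ m (n + 1 - (n + 1 - k))
      rw [e]
      exact h2)
    (fun hk' => by
      have e : n + 1 - (n + 1 - k + 1) = k - 1 := by omega
      show 2 ≤ m (n + 1 - (n + 1 - k + 1))
      rw [e]
      exact h2' (by omega))
    (by
      have e : n + 1 - (n + 1 - k) = k := by omega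
      have e' : n + 1 - (n + 1 - k - 1) = k + 1 := by omega
      show ‖F (n + 1 - (n + 1 - k - 1))‖ ≤ ‖F (n + 1 - (n + 1 - k))‖
      rw [e, e']
      exact hu)
  have e : n + 1 - (n + 1 - k) = k := by omega
  simpa only [e] using key

theorem window {n : ℕ} {F : ℕ → ℂ} {m : ℕ → ℕ}
    (hS : ∀ j, 1 ≤ j → j ≤ n → Sy (m j) (F (j - 1)) (F j) (F (j + 1)))
    (hm : ∀ j, 1 ≤ j → j ≤ n → 1 ≤ m j) (h0 : F 0 = 0) (hend : F (n + 1) = 0)
    {i : ℕ} (hi : 1 ≤ i) (hin : i ≤ n) (hmi : m i = 2)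
    (hw : ∀ j, 1 ≤ j → j ≤ n → i ≤ j + 3 → j ≤ i + 3 → 2 ≤ m j) : 1 < ‖F i ^ 2 + 4‖ := by
  obtain ⟨k, hk, hmax⟩ := Finset.exists_max_image
    ((Finset.Icc 1 n).filter (fun j => i ≤ j + 2 ∧ j ≤ i + 2)) (fun j => ‖F j‖)
    ⟨i, by simp only [Finset.mem_filter, Finset.mem_Icc]; omega⟩
  simp only [Finset.mem_filter, Finset.mem_Icc] at hk hmax
  obtain ⟨⟨hk1, hkn⟩, hki, hki'⟩ := hk
  have hk2 : ‖F k‖ ≤ 2 := by
    by_cases hA : k = 1 ∨ i ≤ k + 1
    · refine esc_right hS hm hend hk1 hkn (hw k hk1 hkn (by omega) (by omega))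
        (fun h => hw (k + 1) (by omega) h (by omega) (by omega)) ?_
      by_cases hk1' : k = 1
      · rw [hk1']
        simp [h0]
      · exact hmax (k - 1) ⟨⟨by omega, by omega⟩, by omega, by omega⟩
    · push Not at hA
      refine esc_left hS hm h0 hk1 hkn (hw k hk1 hkn (by omega) (by omega))
        (fun h => hw (k - 1) (by omega) (by omega) (by omega) (by omega)) ?_
      exact hmax (k + 1) ⟨⟨by omega, by omega⟩, by omega, by omega⟩
  have hall : ∀ j, j ≤ n + 1 → i ≤ j + 2 → j ≤ i + 2 → ‖F j‖ ≤ 2 := by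
    intro j hj h1 h2
    rcases Nat.eq_zero_or_pos j with h | h
    · rw [h, h0, norm_zero]; norm_num
    rcases Nat.lt_or_ge n j with h' | h'
    · rw [show j = n + 1 by omega, hend, norm_zero]; norm_num
    · exact (hmax j ⟨⟨h, h'⟩, h1, h2⟩).trans hk2
  have hre : (F (i - 1)).re ^ 2 ≤ 2 := by
    rcases Nat.lt_or_ge 1 i with h | h
    · have hs := hS (i - 1) (by omega) (by omega)
      exact hs.re_le (hw (i - 1) (by omega) (by omega) (by omega) (by omega))
        (hall _ (by omega) (by omega) (by omega)) (hall _ (by omega) (by omega) (by omega))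
    · rw [show i - 1 = 0 by omega, h0]
      norm_num
  have hre' : (F (i + 1)).re ^ 2 ≤ 2 := by
    rcases Nat.lt_or_ge i n with h | h
    · have hs := hS (i + 1) (by omega) (by omega)
      exact hs.re_le (hw (i + 1) (by omega) (by omega) (by omega) (by omega))
        (hall _ (by omega) (by omega) (by omega)) (hall _ (by omega) (by omega) (by omega))
    · rw [show i + 1 = n + 1 by omega, hend]
      norm_num
  have hs := hS i hi hin
  rw [hmi] at hs
  exact hs.loc (hall _ (by omega) (by omega) (by omega)) (hall _ (by omega) (by omega) (by omega))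
    hre hre'

end Pool.Agent.PT42
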